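import Pool.Agent.P.MP_b2749c_lc.Trans

/-! Coding a recursion with a fibre action over any alphabet with three marked letters. -/

namespace Pool.Agent.P.MP_b2749c_lc

open FreeGroup (of)

namespace Rec

theorem secs_append {X G : Type} (R : Rec X G) (a b : List X) :
    ∀ γ : FreeGroup G, R.secs γ (a ++ b) = R.secs (R.secs γ a) b := by
  induction a with
  | nil => intro γ; rfl
  | cons x a ih => intro γ; simp [ih]

theorem top_inv_fix {X G : Type} (R : Rec X G) {γ : FreeGroup G} {x : X} (h : R.top γ x = x) :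
    R.top γ⁻¹ x = x := by
  conv_lhs => rw [← h, R.top_inv_top]

/-- transfer of a cocycle from generators to the whole free group -/
theorem transfer {X G H Y : Type} (R : Rec X H) (f : FreeGroup G →* FreeGroup H) (c : Y → X)
    (t : FreeGroup G → Y → Y) (s : FreeGroup G → Y → FreeGroup H)
    (t1 : ∀ y, t 1 y = y) (s1 : ∀ y, s 1 y = 1)
    (tm : ∀ a b y, t (a * b) y = t a (t b y)) (sm : ∀ a b y, s (a * b) y = s a (t b y) * s b y)
    (h : ∀ g y, R.top (f (of g)) (c y) = c (t (of g) y) ∧ R.sec (f (of g)) (c y) = s (of g) y)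
    (γ : FreeGroup G) : ∀ y, R.top (f γ) (c y) = c (t γ y) ∧ R.sec (f γ) (c y) = s γ y := by
  induction γ using FreeGroup.induction_on with
  | C1 => intro y; simp [t1, s1]
  | of g => exact h g
  | inv_of g ih =>
    intro y
    have e1 : t (of g) (t (of g)⁻¹ y) = y := by rw [← tm, mul_inv_cancel, t1]
    have e2 : R.top (f (of g))⁻¹ (c y) = c (t (of g)⁻¹ y) := by
      conv_lhs => rw [← e1, ← (ih _).1, R.top_inv_top]
    have e3 := sm (of g) (of g)⁻¹ y
    rw [mul_inv_cancel, s1] at e3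
    rw [map_inv, R.sec_inv, e2, (ih _).2]
    exact ⟨rfl, (eq_inv_of_mul_eq_one_right e3.symm).symm⟩
  | mul a b ha hb =>
    intro y
    rw [map_mul, R.top_mul, R.sec_mul, (hb y).1, (hb y).2, (ha _).1, (ha _).2, tm, sm]
    exact ⟨rfl, rfl⟩

theorem transfer_fix {X G H : Type} (R : Rec X H) (f s : FreeGroup G →* FreeGroup H) (x : X)
    (h : ∀ g, R.top (f (of g)) x = x ∧ R.sec (f (of g)) x = s (of g)) (γ : FreeGroup G) :
    R.top (f γ) x = x ∧ R.sec (f γ) x = s γ :=
  R.transfer f (fun _ : Unit => x) (fun _ y => y) (fun γ _ => s γ) (fun _ => rfl)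
    (fun _ => map_one s) (fun _ _ _ => rfl) (fun a b _ => map_mul s a b) (fun g _ => h g) γ ()

end Rec

/-- generators of the coded recursion -/
inductive CG (G X : Type) (L : ℕ)
  | F (g : G) | C (g : G) (j : Fin L) | B (g : G) (j : Fin L) | r (y y' : X) | D (y y' : X)

instance {G X : Type} {L : ℕ} [Finite G] [Finite X] : Finite (CG G X L) := by
  let f : G ⊕ (G × Fin L) ⊕ (G × Fin L) ⊕ (X × X) ⊕ (X × X) → CG G X L :=
    Sum.elim CG.F (Sum.elim (fun p => CG.C p.1 p.2) (Sum.elim (fun p => CG.B p.1 p.2)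
      (Sum.elim (fun p => CG.r p.1 p.2) (fun p => CG.D p.1 p.2))))
  refine Finite.of_surjective f ?_
  intro g
  cases g with
  | F g => exact ⟨.inl g, rfl⟩
  | C g j => exact ⟨.inr (.inl (g, j)), rfl⟩
  | B g j => exact ⟨.inr (.inr (.inl (g, j))), rfl⟩
  | r y y' => exact ⟨.inr (.inr (.inr (.inl (y, y')))), rfl⟩
  | D y y' => exact ⟨.inr (.inr (.inr (.inr (y, y')))), rfl⟩

section Code

variable {T G X : Type} {L : ℕ}

def cW (X : Type) (L : ℕ) (g : G) (j : ℕ) : List (CG G X L × Bool) :=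
  if h : j < L then [(CG.C g ⟨j, h⟩, true)] else []

def tagF (X : Type) (L : ℕ) (p : G × Bool) : CG G X L × Bool := (CG.F p.1, p.2)

open Classical in
noncomputable def cσ (ι : ZMod 3 ↪ X) (e : T ≃ Fin L) (φ : G → Equiv.Perm (ZMod 3))
    (σ : G → Equiv.Perm (T × Bool)) : CG G X L → Equiv.Perm X
  | .F g => Equiv.Perm.viaEmbeddingHom ι (φ g)
  | .C _ _ => 1
  | .B g j => if (σ g (e.symm j, false)).2 = true then Equiv.swap (ι 1) (ι 2) else 1
  | .r y y' => if y ≠ ι 0 ∧ y' ≠ ι 0 then Equiv.swap y y' else 1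
  | .D _ _ => 1

open Classical in
noncomputable def ch (ι : ZMod 3 ↪ X) (e : T ≃ Fin L) (h : G → T × Bool → List (G × Bool)) :
    CG G X L → X → List (CG G X L × Bool)
  | .F g, _ => cW X L g 0
  | .C g j, x => if x = ι 1 then cW X L g (j + 1) else if x = ι 2 then [(CG.B g j, true)] else []
  | .B g j, x => if x = ι 1 then (h g (e.symm j, false)).map (tagF X L)
      else if x = ι 2 then (h g (e.symm j, true)).map (tagF X L) else []
  | .r _ _, _ => []
  | .D y y', x => if x = ι 2 then [(CG.r y y', true)] else [(CG.D y y', true)]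

/-- the coded recursion -/
noncomputable def code (ι : ZMod 3 ↪ X) (e : T ≃ Fin L) (φ : G → Equiv.Perm (ZMod 3))
    (R : Rec (T × Bool) G) : Rec X (CG G X L) where
  σ := cσ ι e φ R.σ
  h := ch ι e R.h

def iF (X : Type) (L : ℕ) : FreeGroup G →* FreeGroup (CG G X L) := FreeGroup.map CG.F

def iC (X : Type) (L : ℕ) (j : ℕ) : FreeGroup G →* FreeGroup (CG G X L) :=
  FreeGroup.lift fun g => FreeGroup.mk (cW X L g j)

def iB (X : Type) {L : ℕ} (j : Fin L) : FreeGroup G →* FreeGroup (CG G X L) :=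
  FreeGroup.map fun g => CG.B g j

theorem iC_of (g : G) (j : ℕ) : iC X L j (of g) = FreeGroup.mk (cW X L g j) := by simp [iC]

theorem iC_of_lt (g : G) (j : Fin L) : iC X L j (of g) = of (CG.C g j) := by
  rw [iC_of, cW, dif_pos j.2]; rfl

theorem iC_ge {j : ℕ} (h : L ≤ j) (γ : FreeGroup G) : iC X L j γ = 1 := by
  have : (iC X L j : FreeGroup G →* _) = 1 := by
    ext g; rw [iC_of, cW, dif_neg (by omega)]; rfl
  rw [this]; rfl

theorem mk_tagF (l : List (G × Bool)) :
    FreeGroup.mk (l.map (tagF X L)) = iF X L (FreeGroup.mk l) := by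
  rw [iF, FreeGroup.map.mk]; rfl

variable (ι : ZMod 3 ↪ X) (e : T ≃ Fin L) (φ : G → Equiv.Perm (ZMod 3)) (R : Rec (T × Bool) G)

theorem i10 : ι 1 ≠ ι 0 := fun h => absurd (ι.injective h) (by decide)
theorem i20 : ι 2 ≠ ι 0 := fun h => absurd (ι.injective h) (by decide)
theorem i21 : ι 2 ≠ ι 1 := fun h => absurd (ι.injective h) (by decide)

theorem F_top_sec (γ : FreeGroup G) (x : X) :
    (code ι e φ R).top (iF X L γ) x = Equiv.Perm.viaEmbeddingHom ι (FreeGroup.lift φ γ) x ∧
      (code ι e φ R).sec (iF X L γ) x = iC X L 0 γ := by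
  refine (code ι e φ R).transfer (iF X L) id
    (fun γ x => Equiv.Perm.viaEmbeddingHom ι (FreeGroup.lift φ γ) x) (fun γ _ => iC X L 0 γ)
    (by simp) (by simp) (by simp) (by simp) ?_ γ x
  intro g y
  simp [iF, code, cσ, ch, iC_of]

theorem F_top (γ : FreeGroup G) (z : ZMod 3) :
    (code ι e φ R).top (iF X L γ) (ι z) = ι (FreeGroup.lift φ γ z) := by
  rw [(F_top_sec ι e φ R γ _).1, Equiv.Perm.viaEmbeddingHom_apply, Equiv.Perm.viaEmbedding_apply]

theorem C_one (j : Fin L) (γ : FreeGroup G) :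
    (code ι e φ R).top (iC X L j γ) (ι 1) = ι 1 ∧
      (code ι e φ R).sec (iC X L j γ) (ι 1) = iC X L (j + 1) γ := by
  refine (code ι e φ R).transfer_fix _ _ _ (fun g => ?_) γ
  rw [iC_of_lt, iC_of]
  simp [code, cσ, ch]

theorem C_two (j : Fin L) (γ : FreeGroup G) :
    (code ι e φ R).top (iC X L j γ) (ι 2) = ι 2 ∧
      (code ι e φ R).sec (iC X L j γ) (ι 2) = iB X j γ := by
  refine (code ι e φ R).transfer_fix _ _ _ (fun g => ?_) γ
  rw [iC_of_lt]
  simp only [Rec.top_of, Rec.sec_of, code, cσ, ch, if_neg (i21 ι), if_true]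
  exact ⟨rfl, rfl⟩

theorem C_other (j : Fin L) (γ : FreeGroup G) {x : X} (h1 : x ≠ ι 1) (h2 : x ≠ ι 2) :
    (code ι e φ R).top (iC X L j γ) x = x ∧ (code ι e φ R).sec (iC X L j γ) x = 1 := by
  refine (code ι e φ R).transfer_fix _ 1 _ (fun g => ?_) γ
  rw [iC_of_lt]
  simp only [Rec.top_of, Rec.sec_of, code, cσ, ch, if_neg h1, if_neg h2]
  exact ⟨rfl, rfl⟩

theorem B_other (j : Fin L) (γ : FreeGroup G) {x : X} (h1 : x ≠ ι 1) (h2 : x ≠ ι 2) :
    (code ι e φ R).top (iB X j γ) x = x ∧ (code ι e φ R).sec (iB X j γ) x = 1 := by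
  classical
  refine (code ι e φ R).transfer_fix _ 1 _ (fun g => ?_) γ
  simp only [iB, FreeGroup.map.of, Rec.top_of, Rec.sec_of, code, cσ, ch, if_neg h1, if_neg h2]
  refine ⟨?_, rfl⟩
  split_ifs
  · exact Equiv.swap_apply_of_ne_of_ne h1 h2
  · rfl

/-- the letter coding a bit -/
def bit (b : Bool) : X := if b then ι 2 else ι 1

theorem bit_ne (b : Bool) : bit ι b ≠ ι 0 := by
  cases b
  · exact i10 ι
  · exact i20 ι

theorem top_fst (hσ : ∀ g y, (R.σ g y).1 = y.1) (γ : FreeGroup G) :
    ∀ y, (R.top γ y).1 = y.1 := by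
  induction γ using FreeGroup.induction_on with
  | C1 => intro y; simp
  | of g => intro y; simp [hσ]
  | inv_of g ih => intro y; rw [← ih (R.top (of g)⁻¹ y), R.top_top_inv]
  | mul a b ha hb => intro y; rw [R.top_mul, ha, hb]

theorem B_bit (hσ : ∀ g y, (R.σ g y).1 = y.1) (j : Fin L) (γ : FreeGroup G) (b : Bool) :
    (code ι e φ R).top (iB X j γ) (bit ι b) = bit ι (R.top γ (e.symm j, b)).2 ∧
      (code ι e φ R).sec (iB X j γ) (bit ι b) = iF X L (R.sec γ (e.symm j, b)) := by
  classical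
  have hp : ∀ γ b, (e.symm j, (R.top γ (e.symm j, b)).2) = R.top γ (e.symm j, b) := fun γ b =>
    Prod.ext (top_fst R hσ γ (e.symm j, b)).symm rfl
  refine (code ι e φ R).transfer (iB X j) (bit ι) (fun γ b => (R.top γ (e.symm j, b)).2)
    (fun γ b => iF X L (R.sec γ (e.symm j, b))) (by simp) (by simp) ?_ ?_ ?_ γ b
  · intro a b y; simp only [hp, R.top_mul]
  · intro a b y; simp only [hp, R.sec_mul, map_mul]
  · intro g b
    have hne : (R.σ g (e.symm j, true)).2 ≠ (R.σ g (e.symm j, false)).2 := by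
      intro h
      have : R.σ g (e.symm j, true) = R.σ g (e.symm j, false) :=
        Prod.ext (by rw [hσ, hσ]) h
      simpa using (R.σ g).injective this
    simp only [iB, FreeGroup.map.of, Rec.top_of, Rec.sec_of, code, cσ, ch]
    cases b
    · simp only [bit, Bool.false_eq_true, if_false, if_true, mk_tagF, and_true]
      cases (R.σ g (e.symm j, false)).2 <;> simp
    · simp only [bit, if_true, if_neg (i21 ι), mk_tagF, and_true]
      revert hne
      cases (R.σ g (e.symm j, false)).2 <;> cases (R.σ g (e.symm j, true)).2 <;> simp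

open Classical in
theorem r_top (y y' x : X) : (code ι e φ R).top (of (.r y y')) x =
    if y ≠ ι 0 ∧ y' ≠ ι 0 then Equiv.swap y y' x else x := by
  simp only [Rec.top_of, code, cσ]
  split_ifs <;> rfl

theorem r_sec (y y' x : X) : (code ι e φ R).sec (of (.r y y')) x = 1 := by
  simp only [Rec.sec_of, code, ch]; rfl

theorem D_top (y y' x : X) : (code ι e φ R).top (of (.D y y')) x = x := by
  simp [code, cσ]

open Classical in
theorem D_sec (y y' x : X) : (code ι e φ R).sec (of (.D y y')) x =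
    if x = ι 2 then of (.r y y') else of (.D y y') := by
  simp only [Rec.sec_of, code, ch]
  split_ifs <;> rfl

/-! ### No long fibre moves: not level-transitive -/

def Zk (k : ℕ) (γ : FreeGroup G) : Prop :=
  ∀ u : List (T × Bool), k ≤ u.length → FreeGroup.lift φ (R.secs γ u) 0 = 0

theorem fix_zero (hσ : ∀ g y, (R.σ g y).1 = y.1) (w : List X) :
    ∀ (k : ℕ) (γ : FreeGroup G), Zk φ R k γ →
      ((L + 2) * k ≤ w.length →
        (code ι e φ R).top ((code ι e φ R).secs (iF X L γ) w) (ι 0) = ι 0) ∧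
      (∀ j : ℕ, (L + 2) * k ≤ j + 1 + w.length →
        (code ι e φ R).top ((code ι e φ R).secs (iC X L j γ) w) (ι 0) = ι 0) ∧
      (∀ j : Fin L, (L + 2) * k ≤ L + 1 + w.length →
        (code ι e φ R).top ((code ι e φ R).secs (iB X j γ) w) (ι 0) = ι 0) := by
  induction w with
  | nil =>
    intro k γ hγ
    refine ⟨fun hk => ?_, fun j _ => ?_, fun j _ => ?_⟩
    · have : k = 0 := by
        rcases k with _ | k
        · rfl
        · simp at hk
      subst this
      rw [Rec.secs_nil, F_top]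
      exact congrArg ι (hγ [] le_rfl)
    · by_cases hj : j < L
      · exact (C_other ι e φ R ⟨j, hj⟩ γ (i10 ι).symm (i20 ι).symm).1
      · rw [iC_ge (by omega)]; simp
    · exact (B_other ι e φ R j γ (i10 ι).symm (i20 ι).symm).1
  | cons x w ih =>
    intro k γ hγ
    refine ⟨fun hk => ?_, fun j hk => ?_, fun j hk => ?_⟩
    · rw [Rec.secs_cons, (F_top_sec ι e φ R γ x).2]
      exact (ih k γ hγ).2.1 0 (by simp at hk; omega)
    · by_cases hj : j < L
      · rw [Rec.secs_cons]
        by_cases h1 : x = ι 1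
        · rw [h1, (C_one ι e φ R ⟨j, hj⟩ γ).2]
          exact (ih k γ hγ).2.1 (j + 1) (by simp at hk; omega)
        · by_cases h2 : x = ι 2
          · rw [h2, (C_two ι e φ R ⟨j, hj⟩ γ).2]
            exact (ih k γ hγ).2.2 _ (by simp at hk; omega)
          · rw [(C_other ι e φ R ⟨j, hj⟩ γ h1 h2).2]; simp
      · rw [iC_ge (by omega)]; simp
    · rw [Rec.secs_cons]
      have key : ∀ b, (code ι e φ R).top ((code ι e φ R).secs
          ((code ι e φ R).sec (iB X j γ) (bit ι b)) w) (ι 0) = ι 0 := by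
        intro b
        rw [(B_bit ι e φ R hσ j γ b).2]
        refine (ih (k - 1) _ ?_).1 ?_
        · intro u hu
          exact hγ ((e.symm j, b) :: u) (by simp; omega)
        · rcases k with _ | k
          · simp
          · simp only [List.length_cons, Nat.add_sub_cancel, mul_add] at hk ⊢; omega
      by_cases h1 : x = ι 1
      · rw [h1]; exact key false
      · by_cases h2 : x = ι 2
        · rw [h2]; exact key true
        · rw [(B_other ι e φ R j γ h1 h2).2]; simp

theorem r_fix (y y' : X) (w : List X) :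
    (code ι e φ R).top ((code ι e φ R).secs (of (.r y y')) w) (ι 0) = ι 0 := by
  classical
  cases w with
  | nil =>
    rw [Rec.secs_nil, r_top]
    split_ifs with h
    · exact Equiv.swap_apply_of_ne_of_ne h.1.symm h.2.symm
    · rfl
  | cons x w => rw [Rec.secs_cons, r_sec]; simp

theorem D_fix (y y' : X) (w : List X) :
    (code ι e φ R).top ((code ι e φ R).secs (of (.D y y')) w) (ι 0) = ι 0 := by
  induction w with
  | nil => rw [Rec.secs_nil, D_top]
  | cons x w ih =>
    rw [Rec.secs_cons, D_sec]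
    split_ifs
    · exact r_fix ι e φ R y y' w
    · exact ih

theorem code_not_LT (hσ : ∀ g y, (R.σ g y).1 = y.1) (k : ℕ) (hk : ∀ γ, Zk φ R k γ) :
    ¬ (code ι e φ R).LT := by
  have key : ∀ (γ : FreeGroup (CG G X L)) (w : List X), (L + 2) * k ≤ w.length →
      (code ι e φ R).top ((code ι e φ R).secs γ w) (ι 0) = ι 0 := by
    intro γ
    induction γ using FreeGroup.induction_on with
    | C1 => intro w _; simp
    | of i =>
      intro w hw
      cases i with
      | F g => exact (fix_zero ι e φ R hσ w k (of g) (hk _)).1 hw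
      | C g j =>
        rw [← iC_of_lt]
        exact (fix_zero ι e φ R hσ w k (of g) (hk _)).2.1 j (by omega)
      | B g j => exact (fix_zero ι e φ R hσ w k (of g) (hk _)).2.2 j (by omega)
      | r y y' => exact r_fix ι e φ R y y' w
      | D y y' => exact D_fix ι e φ R y y' w
    | inv_of i ih =>
      intro w hw
      rw [Rec.secs_inv]
      exact Rec.top_inv_fix _ (ih _ (by simpa using hw))
    | mul a b ha hb =>
      intro w hw
      rw [Rec.secs_mul, Rec.top_mul, hb w hw, ha _ (by simpa using hw)]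
  intro h
  let a : List X := List.replicate ((L + 2) * k) (ι 0)
  obtain ⟨γ, hγ⟩ := h (a ++ [ι 0]) (a ++ [ι 1]) (by simp)
  rw [Rec.act_append, Rec.act_cons, key γ a (by simp [a])] at hγ
  have h1 := (List.append_inj' hγ (by simp)).2
  simp only [Rec.act_nil, List.cons.injEq, and_true] at h1
  exact i10 ι h1.symm

/-! ### Long fibre moves: level-transitive -/

def isM : CG G X L → Prop
  | .r _ _ => True
  | .D _ _ => True
  | _ => False

theorem r_memM (y y' : X) :
    of (CG.r y y') ∈ Subgroup.closure (of '' {g : CG G X L | isM g}) :=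
  Subgroup.subset_closure ⟨CG.r y y', trivial, rfl⟩

theorem D_memM (y y' : X) :
    of (CG.D y y') ∈ Subgroup.closure (of '' {g : CG G X L | isM g}) :=
  Subgroup.subset_closure ⟨CG.D y y', trivial, rfl⟩

theorem M_replicate {γ : FreeGroup (CG G X L)}
    (h : γ ∈ Subgroup.closure (of '' {g : CG G X L | isM g})) {x : X} (hx : x ≠ ι 0) :
    ∃ δ ∈ Subgroup.closure (of '' {g : CG G X L | isM g}),
      (code ι e φ R).top δ x = x ∧ (code ι e φ R).sec δ x = γ := by
  classical
  have key : ∀ (y y' : X) (b : Bool),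
      (code ι e φ R).top (of (.r x (bit ι b)) * of (.D y y') * of (.r x (bit ι b))) x = x ∧
      (code ι e φ R).sec (of (.r x (bit ι b)) * of (.D y y') * of (.r x (bit ι b))) x =
        if b then of (.r y y') else of (.D y y') := by
    intro y y' b
    have hc : x ≠ ι 0 ∧ bit ι b ≠ ι 0 := ⟨hx, bit_ne ι b⟩
    rw [Rec.top_mul, Rec.top_mul, Rec.sec_mul, Rec.sec_mul, D_top, r_top, r_top, r_sec, r_sec,
      D_sec, if_pos hc, if_pos hc]
    cases b
    · simp [bit, (i21 ι).symm]
    · simp [bit]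
  induction h using Subgroup.closure_induction with
  | mem g hg =>
    obtain ⟨i, hi, rfl⟩ := hg
    cases i with
    | r y y' =>
      exact ⟨_, mul_mem (mul_mem (r_memM _ _) (D_memM y y')) (r_memM _ _), key y y' true⟩
    | D y y' =>
      exact ⟨_, mul_mem (mul_mem (r_memM _ _) (D_memM y y')) (r_memM _ _), key y y' false⟩
    | _ => exact absurd hi (by simp [isM])
  | one => exact ⟨1, one_mem _, by simp, by simp⟩
  | mul a b _ _ ha hb =>
    obtain ⟨δ, hδ, h1, h2⟩ := ha
    obtain ⟨δ', hδ', h1', h2'⟩ := hb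
    exact ⟨δ * δ', mul_mem hδ hδ', by rw [Rec.top_mul, h1', h1],
      by rw [Rec.sec_mul, h1', h2, h2']⟩
  | inv a _ ha =>
    obtain ⟨δ, hδ, h1, h2⟩ := ha
    refine ⟨δ⁻¹, inv_mem hδ, Rec.top_inv_fix _ h1, ?_⟩
    conv_lhs => rw [← h1, Rec.sec_inv_top, h2]

theorem M_trans (u : List X) : ∀ v : List X, u.length = v.length → (∀ x ∈ u, x ≠ ι 0) →
    (∀ x ∈ v, x ≠ ι 0) → ∃ γ ∈ Subgroup.closure (of '' {g : CG G X L | isM g}),
      (code ι e φ R).act γ u = v := by
  classical
  induction u with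
  | nil => intro v hv _ _; exact ⟨1, one_mem _, by simpa using List.length_eq_zero_iff.mp hv.symm⟩
  | cons x u ih =>
    intro v hv hu' hv'
    cases v with
    | nil => simp at hv
    | cons y v =>
      obtain ⟨γ, hγ, h⟩ := ih v (by simpa using hv) (fun z hz => hu' z (by simp [hz]))
        (fun z hz => hv' z (by simp [hz]))
      obtain ⟨δ, hδ, h1, h2⟩ := M_replicate ι e φ R hγ (hu' x (by simp))
      refine ⟨of (.r x y) * δ, mul_mem (r_memM _ _) hδ, ?_⟩
      rw [Rec.act_mul, Rec.act_cons, h1, h2, h, Rec.act_cons, r_top, r_sec,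
        if_pos ⟨hu' x (by simp), hv' y (by simp)⟩]
      simp

/-- the code of a letter of the large alphabet -/
def blk (y : T × Bool) : List X := ι 1 :: (List.replicate (e y.1) (ι 1) ++ [ι 2, bit ι y.2])

theorem C_run (γ : FreeGroup G) (m : ℕ) : ∀ j : ℕ, j + m < L →
    (code ι e φ R).act (iC X L j γ) (List.replicate m (ι 1)) = List.replicate m (ι 1) ∧
      (code ι e φ R).secs (iC X L j γ) (List.replicate m (ι 1)) = iC X L (j + m) γ := by
  induction m with
  | zero => intro j _; exact ⟨rfl, rfl⟩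
  | succ m ih =>
    intro j hj
    have h1 := C_one ι e φ R ⟨j, by omega⟩ γ
    have h2 := ih (j + 1) (by omega)
    simp only at h1
    rw [List.replicate_succ, Rec.act_cons, Rec.secs_cons, h1.1, h1.2, h2.1, h2.2, add_assoc,
      add_comm 1 m]
    exact ⟨rfl, rfl⟩

theorem blk_run (hσ : ∀ g y, (R.σ g y).1 = y.1) (γ : FreeGroup G) (y : T × Bool) :
    (FreeGroup.lift φ γ = 1 → R.top γ y = y →
      (code ι e φ R).act (iF X L γ) (blk ι e y) = blk ι e y) ∧
      (code ι e φ R).secs (iF X L γ) (blk ι e y) = iF X L (R.sec γ y) := by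
  have h1 := C_run ι e φ R γ (e y.1) 0 (by simp)
  have h2 := C_two ι e φ R (e y.1) γ
  have h3 := B_bit ι e φ R hσ (e y.1) γ y.2
  rw [zero_add] at h1
  rw [e.symm_apply_apply, Prod.mk.eta] at h3
  constructor
  · intro hφ hy
    rw [blk, Rec.act_cons, F_top, hφ, (F_top_sec ι e φ R γ _).2, Rec.act_append, h1.1, h1.2,
      Rec.act_cons, h2.1, h2.2, Rec.act_cons, h3.1, hy]
    rfl
  · rw [blk, Rec.secs_cons, (F_top_sec ι e φ R γ _).2, Rec.secs_append, h1.2, Rec.secs_cons, h2.2,
      Rec.secs_cons, h3.2, Rec.secs_nil]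

theorem word_run (hσ : ∀ g y, (R.σ g y).1 = y.1) (u : List (T × Bool)) : ∀ γ : FreeGroup G,
    R.act γ u = u → (∀ a b, u = a ++ b → b ≠ [] → FreeGroup.lift φ (R.secs γ a) = 1) →
      (code ι e φ R).act (iF X L γ) (u.flatMap (blk ι e)) = u.flatMap (blk ι e) ∧
      (code ι e φ R).secs (iF X L γ) (u.flatMap (blk ι e)) = iF X L (R.secs γ u) := by
  induction u with
  | nil => intro γ _ _; exact ⟨rfl, rfl⟩
  | cons y u ih =>
    intro γ h1 h2
    rw [Rec.act_cons, List.cons.injEq] at h1
    have h3 := blk_run ι e φ R hσ γ y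
    have h4 := ih (R.sec γ y) h1.2 (fun a b hab hb => h2 (y :: a) b (by simp [hab]) hb)
    rw [List.flatMap_cons, Rec.act_append, Rec.secs_append, h3.2, h4.1, h4.2,
      h3.1 (h2 [] _ rfl (by simp)) h1.1]
    exact ⟨rfl, rfl⟩

theorem length_word (u : List (T × Bool)) : u.length ≤ (u.flatMap (blk ι e)).length := by
  induction u with
  | nil => simp
  | cons y u ih => simp only [List.flatMap_cons, List.length_append, List.length_cons, blk]; omega

theorem word_ne (u : List (T × Bool)) : ∀ x ∈ u.flatMap (blk ι e), x ≠ ι 0 := by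
  intro x hx
  obtain ⟨y, -, hy⟩ := List.mem_flatMap.mp hx
  simp only [blk, List.mem_cons, List.mem_append, List.mem_replicate, List.not_mem_nil,
    or_false] at hy
  rcases hy with rfl | ⟨-, rfl⟩ | rfl | rfl
  · exact i10 ι
  · exact i10 ι
  · exact i20 ι
  · exact bit_ne ι _

theorem code_LT (hσ : ∀ g y, (R.σ g y).1 = y.1)
    (hb : ∀ N, ∃ γ u, N ≤ List.length u ∧ R.act γ u = u ∧
      (∀ a b, u = a ++ b → b ≠ [] → FreeGroup.lift φ (R.secs γ a) = 1) ∧
      FreeGroup.lift φ (R.secs γ u) 0 ≠ 0) : (code ι e φ R).LT := by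
  have hbump : ∀ n, ∃ (δ : FreeGroup (CG G X L)) (c : List X), c.length = n ∧
      (∀ x ∈ c, x ≠ ι 0) ∧ (code ι e φ R).act δ c = c ∧
      (code ι e φ R).top ((code ι e φ R).secs δ c) (ι 0) ≠ ι 0 := by
    intro n
    obtain ⟨γ, u, h1, h2, h3, h4⟩ := hb n
    obtain ⟨h5, h6⟩ := word_run ι e φ R hσ u γ h2 h3
    have h7 := h1.trans (length_word ι e u)
    have h8 := word_ne ι e u
    generalize u.flatMap (blk ι e) = c at h5 h6 h7 h8
    obtain ⟨c₁, c₂, rfl, hc⟩ : ∃ c₁ c₂, c = c₁ ++ c₂ ∧ c₂.length = n :=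
      ⟨c.take (c.length - n), c.drop (c.length - n), (List.take_append_drop _ _).symm,
        by simp; omega⟩
    refine ⟨(code ι e φ R).secs (iF X L γ) c₁, c₂, hc, fun x hx => h8 x (by simp [hx]), ?_, ?_⟩
    · rw [Rec.act_append] at h5
      exact (List.append_inj h5 (by simp)).2
    · rw [← Rec.secs_append, h6, F_top]
      exact fun h => h4 (ι.injective h)
  have hnz : ∀ w : List X, ∃ γ, ∀ x ∈ (code ι e φ R).act γ w, x ≠ ι 0 := by
    intro w
    induction w using List.reverseRecOn with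
    | nil => exact ⟨1, by simp⟩
    | append_singleton a x ih =>
      obtain ⟨γ, hγ⟩ := ih
      obtain ⟨δ, c, h1, h2, h3, h4⟩ := hbump a.length
      obtain ⟨p, -, hp⟩ := M_trans ι e φ R _ c (by simp [h1]) hγ h2
      have h5 : ∃ x', (code ι e φ R).act (p * γ) (a ++ [x]) = c ++ [x'] := by
        rw [Rec.act_append, Rec.act_mul, hp]; exact ⟨_, rfl⟩
      obtain ⟨x', h5⟩ := h5
      by_cases hx : x' = ι 0
      · refine ⟨δ * (p * γ), ?_⟩
        rw [Rec.act_mul, h5, Rec.act_append, h3, hx]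
        intro y hy
        simp only [Rec.act_cons, Rec.act_nil, List.mem_append, List.mem_singleton] at hy
        rcases hy with hy | rfl
        · exact h2 y hy
        · exact h4
      · refine ⟨p * γ, ?_⟩
        rw [h5]
        intro y hy
        simp only [List.mem_append, List.mem_singleton] at hy
        rcases hy with hy | rfl
        · exact h2 y hy
        · exact hx
  intro u v huv
  obtain ⟨γ, hγ⟩ := hnz u
  obtain ⟨δ, hδ⟩ := hnz v
  obtain ⟨p, -, hp⟩ := M_trans ι e φ R _ _ (by simp [huv]) hγ hδ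
  exact ⟨δ⁻¹ * (p * γ), by rw [Rec.act_mul, Rec.act_mul, hp, Rec.act_inv_act]⟩

end Code

end Pool.Agent.P.MP_b2749c_lc
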