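import Mathlib

namespace Pool.Agent.P.MP_b2749c_lc

/-- The value of a group word: the letter `(i, true)` is `g i`, the letter `(i, false)` is
`(g i)⁻¹`. -/
def evalWord {k : ℕ} {H : Type} [Group H] (g : Fin k → H) (w : List (Fin k × Bool)) : H :=
  (w.map fun p => if p.2 = true then g p.1 else (g p.1)⁻¹).prod

/-- The input `(d; σ_i; h_{i,x})` written as a finite list: row `i`, column `x` holds the pair
`(σ_i(x), h_{i,x})`. -/
def encodeInput (d k : ℕ) (σ : Fin k → Equiv.Perm (Fin d))
    (h : Fin k → Fin d → List (Fin k × Bool)) : ℕ × List (List (ℕ × List (ℕ × Bool))) :=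
  (d, List.ofFn fun i : Fin k => List.ofFn fun x : Fin d =>
    ((σ i x).val, (h i x).map fun p => (p.1.val, p.2)))

/-- The group generated by the `g i` acts transitively on the words of length `n`,
for every `n`. -/
def LevelTransitive {d k : ℕ} (g : Fin k → Equiv.Perm (List (Fin d))) : Prop :=
  ∀ (n : ℕ) (u v : List (Fin d)), u.length = n → v.length = n →
    ∃ γ ∈ Subgroup.closure (Set.range g), γ u = v

end Pool.Agent.P.MP_b2749c_lc
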