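import Pool.Agent.P.MP_b2749c_lc.Run
import Pool.Agent.P.MP_b2749c_lc.Defs

/-! Transfer to `Fin d`, `Fin k`, computability of the reduction and the final theorem. -/

namespace Pool.Agent.P.MP_b2749c_lc

open FreeGroup (of)

section Transfer

variable {X G : Type} {d k : ℕ} (R : Rec X G) (eX : X ≃ Fin d) (eG : G ≃ Fin k)

def σF (i : Fin k) : Equiv.Perm (Fin d) := eX.permCongr (R.σ (eG.symm i))

def hF (i : Fin k) (x : Fin d) : List (Fin k × Bool) :=
  (R.h (eG.symm i) (eX.symm x)).map fun p => (eG p.1, p.2)

def Φ : FreeGroup G →* Equiv.Perm (List (Fin d)) :=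
  (Equiv.permCongrHom (Equiv.listEquivOfEquiv eX)).toMonoidHom.comp R.actHom

theorem Φ_apply (γ : FreeGroup G) (w : List (Fin d)) :
    Φ R eX γ w = (R.act γ (w.map eX.symm)).map eX := rfl

def gF (i : Fin k) : Equiv.Perm (List (Fin d)) := Φ R eX (of (eG.symm i))

theorem evalWord_gF (l : List (G × Bool)) :
    evalWord (gF R eX eG) (l.map fun p => (eG p.1, p.2)) = Φ R eX (FreeGroup.mk l) := by
  induction l with
  | nil => simp [evalWord, mk_nil]
  | cons p l ih =>
    obtain ⟨x, b⟩ := p
    unfold evalWord at ih ⊢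
    cases b
    · rw [mk_cons_false, map_mul, ← ih]; simp [gF]
    · rw [mk_cons_true, map_mul, ← ih]; simp [gF]

theorem gF_nil (i : Fin k) : gF R eX eG i [] = [] := rfl

theorem gF_cons (i : Fin k) (x : Fin d) (w : List (Fin d)) :
    gF R eX eG i (x :: w) = σF R eX eG i x :: evalWord (gF R eX eG) (hF R eX eG i x) w := by
  rw [hF, evalWord_gF, gF, Φ_apply, Φ_apply]
  simp [σF]

theorem closure_gF : Subgroup.closure (Set.range (gF R eX eG)) = (Φ R eX).range := by
  have h1 : Set.range (gF R eX eG) = Φ R eX '' Set.range of := by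
    ext g
    constructor
    · rintro ⟨i, rfl⟩; exact ⟨_, ⟨_, rfl⟩, rfl⟩
    · rintro ⟨_, ⟨x, rfl⟩, rfl⟩; exact ⟨eG x, by simp [gF]⟩
  rw [h1, ← MonoidHom.map_closure, FreeGroup.closure_range_of, MonoidHom.range_eq_map]

theorem levelTransitive_iff : LevelTransitive (gF R eX eG) ↔ R.LT := by
  unfold LevelTransitive
  rw [closure_gF]
  constructor
  · intro h u v huv
    obtain ⟨_, ⟨γ, rfl⟩, hγ⟩ := h v.length (u.map eX) (v.map eX) (by simpa using huv) (by simp)
    refine ⟨γ, ?_⟩
    rw [Φ_apply] at hγ
    have := List.map_injective_iff.mpr eX.injective hγ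
    simpa using this
  · intro h n u v hu hv
    obtain ⟨γ, hγ⟩ := h (u.map eX.symm) (v.map eX.symm) (by simp [hu, hv])
    exact ⟨_, ⟨γ, rfl⟩, by rw [Φ_apply, hγ]; simp⟩

end Transfer

theorem primrec_idx : Primrec idx := by
  have : Primrec (Nat.rec (motive := fun _ => ℕ) 0 (fun _ m => 2 * m + 1)) :=
    Primrec.nat_rec₁ 0
      (Primrec.succ.comp (Primrec.nat_mul.comp (Primrec.const 2) Primrec.snd)).to₂
  refine this.of_eq fun n => ?_
  induction n with
  | zero => rfl
  | succ n ih => simp only [idx, ← ih]

theorem primrec_replicate {α : Type} [Primcodable α] (c : α) :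
    Primrec fun n => List.replicate n c := by
  have : Primrec fun n => (List.range n).map fun _ => c :=
    Primrec.list_map Primrec.list_range (Primrec.const c).to₂
  exact this.of_eq fun n => by simp

theorem primrec_Bw {T : Type} (f : Gen T × Bool → ℕ × Bool) (c : T) (s : Bool) :
    Primrec fun N => (Bw c s N).map f := by
  simp only [Bw, List.map_append, List.map_replicate]
  exact Primrec.list_append.comp (Primrec.list_append.comp
    ((primrec_replicate _).comp primrec_idx) (Primrec.const _))
    ((primrec_replicate _).comp primrec_idx)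

theorem primrec_guardW {T : Type} (f : Gen T × Bool → ℕ × Bool) (c : T) (κ : Kind) :
    Primrec fun N => (guardW c κ N).map f := by
  cases κ
  · exact Primrec.const _
  · exact Primrec.const _
  · exact Primrec.const _
  · simp only [guardW, List.map_append]
    exact Primrec.list_append.comp (Primrec.list_append.comp (Primrec.list_append.comp
      (Primrec.const _) (primrec_Bw f c true)) (Primrec.const _)) (primrec_Bw f c false)
  · simp only [guardW, List.map_append]
    exact Primrec.list_append.comp (Primrec.list_append.comp (Primrec.list_append.comp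
      (Primrec.const _) (primrec_Bw f c true)) (Primrec.const _)) (primrec_Bw f c false)

theorem primrec_hN {T S : Type} (M : Sys T S) (f : Gen T × Bool → ℕ × Bool) (g : Gen T)
    (y : T × Bool) : Primrec fun N => (M.hN g y N).map f := by
  cases g with
  | e c =>
    simp only [Sys.hN]
    split_ifs
    · exact primrec_guardW f _ _
    · exact Primrec.const _
  | t c => simp only [Sys.hN]; exact Primrec.const _
  | a c => simp only [Sys.hN]; exact Primrec.const _
  | r c c' => simp only [Sys.hN]; exact Primrec.const _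
  | D c c' => simp only [Sys.hN]; exact Primrec.const _

theorem primrec_bnd (U : Prog) (x : TT U) : Primrec fun n => bnd U n x := by
  unfold bnd
  split_ifs
  · exact Primrec.id
  · exact Primrec.const _

theorem primrec_encode (U : Prog) {d k : ℕ} (eX : (TT U × Bool) × ZMod 3 ≃ Fin d)
    (eG : Gen (TT U) ≃ Fin k) :
    Primrec fun n => encodeInput d k (σF ((sys U).recX (bnd U n)) eX eG)
      (hF ((sys U).recX (bnd U n)) eX eG) := by
  unfold encodeInput
  refine Primrec.pair (Primrec.const d) (Primrec.list_ofFn fun i => Primrec.list_ofFn fun x =>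
    Primrec.pair (Primrec.const (σF ((sys U).recX (bnd U 0)) eX eG i x).val) ?_)
  simp only [hF, List.map_map]
  exact (primrec_hN (sys U) _ (eG.symm i) (eX.symm x).1).comp (primrec_bnd U _)

open Nat.Partrec in
theorem undecidable :
    ∃ d k : ℕ, 2 ≤ d ∧ ¬ ∃ f : ℕ × List (List (ℕ × List (ℕ × Bool))) →. Bool, Partrec f ∧
      ∀ (σ : Fin k → Equiv.Perm (Fin d)) (h : Fin k → Fin d → List (Fin k × Bool))
        (g : Fin k → Equiv.Perm (List (Fin d))),
        (∀ i, g i [] = []) → (∀ i x w, g i (x :: w) = σ i x :: evalWord g (h i x) w) →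
        ∃ b ∈ f (encodeInput d k σ h), (b = true ↔ LevelTransitive g) := by
  classical
  obtain ⟨U, hU⟩ := exists_universal
  obtain ⟨d, ⟨eX⟩⟩ := Finite.exists_equiv_fin ((TT U × Bool) × ZMod 3)
  obtain ⟨k, ⟨eG⟩⟩ := Finite.exists_equiv_fin (Gen (TT U))
  refine ⟨d, k, ?_, ?_⟩
  · obtain ⟨x⟩ : Nonempty (TT U) := inferInstance
    have hne : eX ((x, false), 0) ≠ eX ((x, true), 0) := by simp
    have h1 := (eX ((x, false), 0)).2
    have h2 := (eX ((x, true), 0)).2
    have h3 : (eX ((x, false), 0)).1 ≠ (eX ((x, true), 0)).1 := fun h => hne (Fin.ext h)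
    omega
  rintro ⟨f, hf, hcorr⟩
  have hF' := hf.comp (primrec_encode U eX eG).to_comp
  have hg : Computable fun n : ℕ =>
      decide (¬ (Code.eval (Denumerable.ofNat Code n) 0).Dom) := by
    refine hF'.of_eq_tot fun n => ?_
    obtain ⟨b, hb, hiff⟩ := hcorr _ _ _ (gF_nil ((sys U).recX (bnd U n)) eX eG)
      (gF_cons ((sys U).recX (bnd U n)) eX eG)
    rw [levelTransitive_iff, LT_iff_not_halt, hU] at hiff
    have : b = decide (¬ (Code.eval (Denumerable.ofNat Code n) 0).Dom) := by
      cases b <;> simp_all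
    rwa [← this]
  refine ComputablePred.halting_problem 0 (ComputablePred.computable_iff.mpr
    ⟨fun c => !decide (¬ (Code.eval (Denumerable.ofNat Code (Encodable.encode c)) 0).Dom),
      Primrec.not.to_comp.comp (hg.comp Computable.encode), ?_⟩)
  funext c
  simp

end Pool.Agent.P.MP_b2749c_lc
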