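import Pool.Agent.P.MP_b2749c_lc.Final
import Pool.Agent.P.MP_b2749c_lc.Code

/-! Undecidability of level-transitivity over every alphabet with at least three letters. -/

namespace Pool.Agent.P.MP_b2749c_lc

open FreeGroup (of)

namespace Sys

variable {T S : Type} (M : Sys T S)

def core : Gen T → Bool
  | .r _ _ => false
  | .D _ _ => false
  | _ => true

noncomputable def σ0 (g : Gen T) : Equiv.Perm (T × Bool) := if core g then M.σ g else 1

noncomputable def h0 (g : Gen T) (y : T × Bool) (N : ℕ) : List (Gen T × Bool) :=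
  if core g then M.hN g y N else []

/-- the recursion with the history movers removed -/
noncomputable def rec0 (bnd : T → ℕ) : Rec (T × Bool) (Gen T) where
  σ := M.σ0
  h g y := M.h0 g y (bnd y.1)

def proj : FreeGroup (Gen T) →* FreeGroup (Gen T) :=
  FreeGroup.lift fun g => if core g then of g else 1

theorem proj_of (g : Gen T) : proj (of g) = if core g then of g else 1 := by simp [proj]

theorem proj_mk (l : List (Gen T × Bool)) (h : ∀ p ∈ l, core p.1 = true) :
    proj (FreeGroup.mk l) = FreeGroup.mk l := by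
  induction l with
  | nil => exact map_one _
  | cons p l ih =>
    obtain ⟨x, b⟩ := p
    have h1 : proj (of x) = of x := by rw [proj_of, if_pos (h _ List.mem_cons_self)]
    have h2 := ih fun p hp => h p (List.mem_cons_of_mem _ hp)
    cases b
    · rw [mk_cons_false, map_mul, map_inv, h1, h2]
    · rw [mk_cons_true, map_mul, h1, h2]

theorem core_hN (g : Gen T) (hg : core g = true) (y : T × Bool) (N : ℕ) :
    ∀ p ∈ M.hN g y N, core p.1 = true := by
  cases g with
  | t c => simp only [hN]; cases M.lk y.1 c <;> cases y.2 <;> simp [tW, core]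
  | a c => simp only [hN]; cases M.lk y.1 c <;> cases y.2 <;> simp [aW, core]
  | e c =>
    simp only [hN]
    split_ifs
    · have hB : ∀ s, ∀ p ∈ Bw y.1 s N, core p.1 = true := by
        intro s p hp
        simp only [Bw, List.mem_append, List.mem_replicate, List.mem_singleton] at hp
        rcases hp with (⟨-, rfl⟩ | rfl) | ⟨-, rfl⟩ <;> rfl
      intro p hp
      cases hk : M.kind y.1 <;> rw [hk] at hp <;>
        simp only [guardW, List.mem_append, List.mem_singleton] at hp
      · rw [hp]; rfl
      · rw [hp]; rfl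
      · rw [hp]; rfl
      · rcases hp with ((rfl | hp) | rfl) | hp
        · rfl
        · exact hB _ _ hp
        · rfl
        · exact hB _ _ hp
      · rcases hp with ((rfl | hp) | rfl) | hp
        · rfl
        · exact hB _ _ hp
        · rfl
        · exact hB _ _ hp
    · simp
  | r y y' => simp [core] at hg
  | D y y' => simp [core] at hg

variable (bnd : T → ℕ)

theorem proj_top_sec (γ : FreeGroup (Gen T)) (y : T × Bool) :
    (M.recY bnd).top (proj γ) y = (M.rec0 bnd).top γ y ∧
      (M.recY bnd).sec (proj γ) y = proj ((M.rec0 bnd).sec γ y) := by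
  refine (M.recY bnd).transfer proj id (M.rec0 bnd).top (fun γ y => proj ((M.rec0 bnd).sec γ y))
    (by simp) (by simp) (M.rec0 bnd).top_mul (fun a b y => ?_) (fun g y => ?_) γ y
  · simp only [Rec.sec_mul, map_mul]
  · rw [proj_of]
    by_cases hg : core g = true
    · simp only [if_pos hg, Rec.top_of, Rec.sec_of, rec0, σ0, h0, recY, id]
      exact ⟨trivial, (proj_mk _ (M.core_hN g hg y _)).symm⟩
    · simp only [if_neg hg, Rec.top_of, Rec.sec_of, rec0, σ0, h0, id, Rec.top_one, Rec.sec_one]
      exact ⟨rfl, (map_one _).symm⟩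

theorem proj_act_secs (w : List (T × Bool)) : ∀ γ : FreeGroup (Gen T),
    (M.recY bnd).act (proj γ) w = (M.rec0 bnd).act γ w ∧
      (M.recY bnd).secs (proj γ) w = proj ((M.rec0 bnd).secs γ w) := by
  induction w with
  | nil => intro γ; exact ⟨rfl, rfl⟩
  | cons y w ih =>
    intro γ
    rw [Rec.act_cons, Rec.act_cons, Rec.secs_cons, Rec.secs_cons, (M.proj_top_sec bnd γ y).1,
      (M.proj_top_sec bnd γ y).2, (ih _).1, (ih _).2]
    exact ⟨rfl, rfl⟩

theorem fib_proj (γ : FreeGroup (Gen T)) : M.fib (proj γ) = M.fib γ := by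
  have : M.fib.comp proj = M.fib := by
    ext g : 1
    rw [MonoidHom.comp_apply, proj_of]
    cases g <;> simp [core, fib, φ]
  exact DFunLike.congr_fun this γ

theorem lift_secs (γ : FreeGroup (Gen T)) (w : List (T × Bool)) :
    FreeGroup.lift M.φ ((M.rec0 bnd).secs γ w) = M.fib ((M.recY bnd).secs (proj γ) w) := by
  rw [(M.proj_act_secs bnd w γ).2, fib_proj]; rfl

theorem σ0_fst (g : Gen T) (y : T × Bool) : ((M.rec0 bnd).σ g y).1 = y.1 := by
  cases g with
  | t c =>
    simp only [rec0, σ0, core, σ, if_true, Function.Involutive.coe_toPerm, tFun]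
    split_ifs <;> rfl
  | _ => simp [rec0, σ0, core, σ]

theorem ok_drop (l : List T) : ∀ (s : S) (n : ℕ), n ≤ l.length → M.ok bnd l s →
    ∃ (l' : List T) (s' : S), l'.length = n ∧ M.ok bnd l' s' := by
  induction l with
  | nil => intro s n hn h; exact ⟨[], s, (Nat.le_zero.mp hn).symm, h⟩
  | cons τ l ih =>
    intro s n hn h
    rcases hn.eq_or_lt with hn | hn
    · exact ⟨τ :: l, s, hn.symm, h⟩
    · exact ih _ n (by simp at hn; omega) h.2.2

theorem code_LT_iff {X : Type} {L : ℕ} (ι : ZMod 3 ↪ X) (e : T ≃ Fin L)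
    (h0 : ∀ τ, M.tgt τ ≠ M.s₀) : (code ι e M.φ (M.rec0 bnd)).LT ↔
      ∀ n, ∃ (l : List T) (s : S), l.length = n ∧ M.ok bnd l s := by
  constructor
  · intro h n
    by_contra hc
    refine code_not_LT ι e M.φ (M.rec0 bnd) (M.σ0_fst bnd) n (fun γ u hu => ?_) h
    rw [lift_secs]
    exact M.fib_secs_zero bnd (n := u.length)
      (fun l s hl hok => hc (M.ok_drop bnd l s n (by omega) hok)) _ u rfl
  · intro hrun
    refine code_LT ι e M.φ (M.rec0 bnd) (M.σ0_fst bnd) fun N => ?_
    obtain ⟨l, s, hl, hok⟩ := hrun (N + 1)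
    obtain ⟨c, l, rfl⟩ := List.exists_cons_of_length_eq_add_one hl
    have hok' := hok.2.2
    have hp : proj (of (Gen.e c)) = of (Gen.e c) := by rw [proj_of]; rfl
    refine ⟨of (.e c), l.map fun τ => (τ, false), by simp at hl; simp [hl], ?_, ?_, ?_⟩
    · rw [← (M.proj_act_secs bnd _ _).1, hp, act_e]
    · intro p q hpq hq
      rw [lift_secs, hp]
      obtain ⟨b', hb', hiff'⟩ := M.fib_secs_e bnd p c
      have : b' = 0 := by
        by_contra hne
        obtain ⟨l₁, rfl, hok₁⟩ := hiff'.mp hne
        obtain ⟨l₂, l₃, rfl, h2, h3⟩ := List.map_eq_append_iff.mp hpq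
        have : l₂ = l₁ := List.map_injective_iff.mpr (fun a b hab => by simpa using hab) h2
        subst this
        have := M.ok_unique bnd h0 l₂ l₃ _ hok₁ hok'
        subst this
        exact hq h3.symm
      rw [hb', this]; ext z; simp
    · rw [lift_secs, hp]
      obtain ⟨b, hb, hiff⟩ := M.fib_secs_e bnd (l.map fun τ => (τ, false)) c
      rw [hb]
      simpa using hiff.mpr ⟨l, rfl, hok'⟩

end Sys

theorem primrec_h0 {T S : Type} (M : Sys T S) (f : Gen T × Bool → ℕ × Bool) (g : Gen T)
    (y : T × Bool) : Primrec fun N => (M.h0 g y N).map f := by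
  unfold Sys.h0
  split_ifs
  · exact primrec_hN M f g y
  · exact Primrec.const _

theorem primrec_ch (U : Prog) {X : Type} {L : ℕ} (ι : ZMod 3 ↪ X) (e : TT U ≃ Fin L)
    (f : CG (Gen (TT U)) X L × Bool → ℕ × Bool) (i : CG (Gen (TT U)) X L) (x : X) :
    Primrec fun n => (ch ι e ((sys U).rec0 (bnd U n)).h i x).map f := by
  cases i with
  | B g j =>
    simp only [ch]
    split_ifs
    · simp only [List.map_map]
      exact (primrec_h0 (sys U) _ g (e.symm j, false)).comp (primrec_bnd U _)
    · simp only [List.map_map]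
      exact (primrec_h0 (sys U) _ g (e.symm j, true)).comp (primrec_bnd U _)
    · exact Primrec.const _
  | F g => simp only [ch]; exact Primrec.const _
  | C g j => simp only [ch]; exact Primrec.const _
  | r y y' => simp only [ch]; exact Primrec.const _
  | D y y' => simp only [ch]; exact Primrec.const _

theorem primrec_encode3 (U : Prog) {d k L : ℕ} (ι : ZMod 3 ↪ Fin d) (e : TT U ≃ Fin L)
    (eG : CG (Gen (TT U)) (Fin d) L ≃ Fin k) :
    Primrec fun n => encodeInput d k
      (σF (code ι e (sys U).φ ((sys U).rec0 (bnd U n))) (Equiv.refl _) eG)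
      (hF (code ι e (sys U).φ ((sys U).rec0 (bnd U n))) (Equiv.refl _) eG) := by
  unfold encodeInput
  refine Primrec.pair (Primrec.const d) (Primrec.list_ofFn fun i => Primrec.list_ofFn fun x =>
    Primrec.pair (Primrec.const
      (σF (code ι e (sys U).φ ((sys U).rec0 (bnd U 0))) (Equiv.refl _) eG i x).val) ?_)
  simp only [hF, List.map_map]
  exact primrec_ch U ι e _ (eG.symm i) x

open Nat.Partrec in
theorem undecidable_every (d : ℕ) (hd : 3 ≤ d) :
    ∃ k : ℕ, ¬ ∃ f : ℕ × List (List (ℕ × List (ℕ × Bool))) →. Bool, Partrec f ∧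
      ∀ (σ : Fin k → Equiv.Perm (Fin d)) (h : Fin k → Fin d → List (Fin k × Bool))
        (g : Fin k → Equiv.Perm (List (Fin d))),
        (∀ i, g i [] = []) → (∀ i x w, g i (x :: w) = σ i x :: evalWord g (h i x) w) →
        ∃ b ∈ f (encodeInput d k σ h), (b = true ↔ LevelTransitive g) := by
  classical
  obtain ⟨U, hU⟩ := exists_universal
  obtain ⟨L, ⟨e⟩⟩ := Finite.exists_equiv_fin (TT U)
  obtain ⟨ι⟩ : Nonempty (ZMod 3 ↪ Fin d) :=
    Function.Embedding.nonempty_of_card_le (by simpa using hd)
  obtain ⟨k, ⟨eG⟩⟩ := Finite.exists_equiv_fin (CG (Gen (TT U)) (Fin d) L)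
  refine ⟨k, ?_⟩
  rintro ⟨f, hf, hcorr⟩
  have hF' := hf.comp (primrec_encode3 U ι e eG).to_comp
  have hg : Computable fun n : ℕ =>
      decide (¬ (Code.eval (Denumerable.ofNat Code n) 0).Dom) := by
    refine hF'.of_eq_tot fun n => ?_
    obtain ⟨b, hb, hiff⟩ := hcorr _ _ _
      (gF_nil (code ι e (sys U).φ ((sys U).rec0 (bnd U n))) (Equiv.refl _) eG)
      (gF_cons (code ι e (sys U).φ ((sys U).rec0 (bnd U n))) (Equiv.refl _) eG)
    rw [levelTransitive_iff, (sys U).code_LT_iff (bnd U n) ι e (tgt_ne U),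
      ← (sys U).LT_iff (bnd U n) (tgt_ne U), LT_iff_not_halt, hU] at hiff
    have : b = decide (¬ (Code.eval (Denumerable.ofNat Code n) 0).Dom) := by
      cases b <;> simp_all
    rwa [← this]
  refine ComputablePred.halting_problem 0 (ComputablePred.computable_iff.mpr
    ⟨fun c => !decide (¬ (Code.eval (Denumerable.ofNat Code (Encodable.encode c)) 0).Dom),
      Primrec.not.to_comp.comp (hg.comp Computable.encode), ?_⟩)
  funext c
  simp

end Pool.Agent.P.MP_b2749c_lc
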