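import Pool.Agent.P.MP_b2749c_lc.Sys

/-! Level-transitivity of the group of a counter system is equivalent to the existence of
arbitrarily long runs. -/

namespace Pool.Agent.P.MP_b2749c_lc

open FreeGroup (of)

namespace Sys

variable {T S : Type} (M : Sys T S) (bnd : T → ℕ)

/-- the recursion on the full alphabet -/
noncomputable def recX : Rec ((T × Bool) × ZMod 3) (Gen T) := (M.recY bnd).ext M.φ

def isV : Gen T → Prop
  | .e _ => False
  | _ => True

def isP : Gen T → Prop
  | .r _ _ => True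
  | .D _ _ => True
  | _ => False

theorem mk_mem_closure {G : Type} (S : Set G) (l : List (G × Bool)) (h : ∀ p ∈ l, p.1 ∈ S) :
    FreeGroup.mk l ∈ Subgroup.closure (of '' S) := by
  induction l with
  | nil => exact one_mem _
  | cons p l ih =>
    obtain ⟨x, b⟩ := p
    have h1 : of x ∈ Subgroup.closure (of '' S) :=
      Subgroup.subset_closure ⟨x, h _ List.mem_cons_self, rfl⟩
    have h2 := ih fun p hp => h p (List.mem_cons_of_mem _ hp)
    cases b
    · rw [mk_cons_false]; exact mul_mem (inv_mem h1) h2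
    · rw [mk_cons_true]; exact mul_mem h1 h2

theorem V_closed : ∀ i ∈ {g : Gen T | isV g}, ∀ x,
    FreeGroup.mk ((M.recY bnd).h i x) ∈ Subgroup.closure (of '' {g : Gen T | isV g}) := by
  intro i hi x
  refine mk_mem_closure _ _ ?_
  cases i with
  | t c => simp only [recY, hN]; cases M.lk x.1 c <;> cases x.2 <;> simp [tW, isV]
  | a c => simp only [recY, hN]; cases M.lk x.1 c <;> cases x.2 <;> simp [aW, isV]
  | e c => exact absurd hi (by simp [isV])
  | r y y' => simp [recY, hN]
  | D y y' => simp only [recY, hN]; cases x.2 <;> simp [isV]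

theorem P_closed : ∀ i ∈ {g : Gen T | isP g}, ∀ x,
    FreeGroup.mk ((M.recY bnd).h i x) ∈ Subgroup.closure (of '' {g : Gen T | isP g}) := by
  intro i hi x
  refine mk_mem_closure _ _ ?_
  cases i with
  | t c => exact absurd hi (by simp [isP])
  | a c => exact absurd hi (by simp [isP])
  | e c => exact absurd hi (by simp [isP])
  | r y y' => simp [recY, hN]
  | D y y' => simp only [recY, hN]; cases x.2 <;> simp [isP]

theorem fib_V {γ : FreeGroup (Gen T)} (h : γ ∈ Subgroup.closure (of '' {g : Gen T | isV g})) :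
    M.fib γ 0 = 0 := by
  induction h using Subgroup.closure_induction with
  | mem g hg =>
    obtain ⟨i, hi, rfl⟩ := hg
    cases i with
    | e c => exact absurd hi (by simp [isV])
    | _ => simp [fib, φ]
  | one => simp
  | mul a b _ _ ha hb => simp [ha, hb]
  | inv a _ ha =>
    rw [map_inv, Equiv.Perm.inv_eq_iff_eq]; exact ha.symm

theorem fib_P {γ : FreeGroup (Gen T)} (h : γ ∈ Subgroup.closure (of '' {g : Gen T | isP g})) :
    M.fib γ = 1 := by
  induction h using Subgroup.closure_induction with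
  | mem g hg =>
    obtain ⟨i, hi, rfl⟩ := hg
    cases i with
    | r y y' => simp [fib, φ]
    | D y y' => simp [fib, φ]
    | _ => exact absurd hi (by simp [isP])
  | one => simp
  | mul a b _ _ ha hb => simp [ha, hb]
  | inv a _ ha => simp [ha]

/-- If there is no run of length `n`, all level-`n` sections fix `0` in the fibre. -/
theorem fib_secs_zero {n : ℕ} (hn : ∀ (l : List T) (s : S), l.length = n → ¬ M.ok bnd l s)
    (γ : FreeGroup (Gen T)) :
    ∀ w : List (T × Bool), w.length = n → M.fib ((M.recY bnd).secs γ w) 0 = 0 := by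
  have hgen : ∀ (i : Gen T) (w : List (T × Bool)), w.length = n →
      M.fib ((M.recY bnd).secs (of i) w) 0 = 0 := by
    intro i w hw
    by_cases hi : isV i
    · exact M.fib_V ((M.recY bnd).secs_mem_closure _ (M.V_closed bnd) w _
        (Subgroup.subset_closure ⟨i, hi, rfl⟩))
    · cases i with
      | e c =>
        obtain ⟨b, hb, hiff⟩ := M.fib_secs_e bnd w c
        have : b = 0 := by
          by_contra hne
          obtain ⟨l, rfl, hok⟩ := hiff.mp hne
          exact hn l _ (by simpa using hw) hok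
        simp [hb, this]
      | _ => exact absurd trivial hi
  induction γ using FreeGroup.induction_on with
  | C1 => intro w _; simp
  | of i => exact hgen i
  | inv_of i ih =>
    intro w hw
    rw [Rec.secs_inv, map_inv, Equiv.Perm.inv_eq_iff_eq]
    exact (ih _ (by simpa using hw)).symm
  | mul a b ha hb =>
    intro w hw
    rw [Rec.secs_mul, map_mul, Equiv.Perm.mul_apply, hb w hw, ha _ (by simpa using hw)]

theorem not_LT_of_no_run [Nonempty T] {n : ℕ}
    (hn : ∀ (l : List T) (s : S), l.length = n → ¬ M.ok bnd l s) : ¬ (M.recX bnd).LT := by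
  intro h
  obtain ⟨τ⟩ := ‹Nonempty T›
  let a : List ((T × Bool) × ZMod 3) := List.replicate n ((τ, false), 0)
  obtain ⟨γ, hγ⟩ := h (a ++ [((τ, false), 0)]) (a ++ [((τ, false), 1)]) (by simp)
  rw [Rec.act_append, recX, Rec.ext_act_cons, Rec.ext_secs] at hγ
  have h1 := (List.append_inj' hγ (by simp)).2
  simp only [Rec.act_nil, List.cons.injEq, Prod.mk.injEq, and_true] at h1
  have h2 := M.fib_secs_zero bnd hn γ (a.map Prod.fst) (by simp [a])
  rw [fib] at h2
  rw [h2] at h1
  exact absurd h1.2 (by decide)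

open Classical in
theorem top_r (y y' x : T × Bool) : (M.recY bnd).top (of (.r y y')) x = Equiv.swap y y' x := by
  simp [recY, σ]

theorem sec_r (y y' x : T × Bool) : (M.recY bnd).sec (of (.r y y')) x = 1 := by
  simp [recY, hN]; rfl

theorem top_D (y y' x : T × Bool) : (M.recY bnd).top (of (.D y y')) x = x := by
  simp [recY, σ]

theorem sec_D (y y' x : T × Bool) :
    (M.recY bnd).sec (of (.D y y')) x = if x.2 then of (.r y y') else of (.D y y') := by
  simp only [recY, Rec.sec_of, hN]
  split_ifs <;> rfl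

theorem r_mem (y y' : T × Bool) :
    of (Gen.r y y') ∈ Subgroup.closure (of '' {g : Gen T | isP g}) :=
  Subgroup.subset_closure ⟨Gen.r y y', trivial, rfl⟩

theorem D_mem (y y' : T × Bool) :
    of (Gen.D y y') ∈ Subgroup.closure (of '' {g : Gen T | isP g}) :=
  Subgroup.subset_closure ⟨Gen.D y y', trivial, rfl⟩

/-- the group `P` is self-replicating -/
theorem P_replicate {γ : FreeGroup (Gen T)}
    (h : γ ∈ Subgroup.closure (of '' {g : Gen T | isP g})) (x : T × Bool) :
    ∃ δ ∈ Subgroup.closure (of '' {g : Gen T | isP g}),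
      (M.recY bnd).top δ x = x ∧ (M.recY bnd).sec δ x = γ := by
  classical
  have key : ∀ (y y' : T × Bool) (b : Bool),
      (M.recY bnd).top (of (.r x (x.1, b)) * of (.D y y') * of (.r x (x.1, b))) x = x ∧
      (M.recY bnd).sec (of (.r x (x.1, b)) * of (.D y y') * of (.r x (x.1, b))) x =
        if b then of (.r y y') else of (.D y y') := by
    intro y y' b
    rw [Rec.top_mul, Rec.top_mul, Rec.sec_mul, Rec.sec_mul, top_D, top_r, top_r, sec_r, sec_r,
      sec_D]
    simp
  induction h using Subgroup.closure_induction with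
  | mem g hg =>
    obtain ⟨i, hi, rfl⟩ := hg
    cases i with
    | r y y' =>
      exact ⟨_, mul_mem (mul_mem (r_mem _ _) (D_mem y y')) (r_mem _ _), key y y' true⟩
    | D y y' =>
      exact ⟨_, mul_mem (mul_mem (r_mem _ _) (D_mem y y')) (r_mem _ _), key y y' false⟩
    | _ => exact absurd hi (by simp [isP])
  | one => exact ⟨1, one_mem _, by simp, by simp⟩
  | mul a b _ _ ha hb =>
    obtain ⟨δ, hδ, h1, h2⟩ := ha
    obtain ⟨δ', hδ', h1', h2'⟩ := hb
    exact ⟨δ * δ', mul_mem hδ hδ', by rw [Rec.top_mul, h1', h1],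
      by rw [Rec.sec_mul, h1', h2, h2']⟩
  | inv a _ ha =>
    obtain ⟨δ, hδ, h1, h2⟩ := ha
    refine ⟨δ⁻¹, inv_mem hδ, ?_, ?_⟩
    · conv_lhs => rw [← h1, Rec.top_inv_top]
    · conv_lhs => rw [← h1, Rec.sec_inv_top, h2]

theorem P_trans (u : List (T × Bool)) : ∀ v : List (T × Bool), u.length = v.length →
    ∃ γ ∈ Subgroup.closure (of '' {g : Gen T | isP g}), (M.recY bnd).act γ u = v := by
  classical
  induction u with
  | nil => intro v hv; exact ⟨1, one_mem _, by simpa using List.length_eq_zero_iff.mp hv.symm⟩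
  | cons x u ih =>
    intro v hv
    cases v with
    | nil => simp at hv
    | cons y v =>
      obtain ⟨γ, hγ, h⟩ := ih v (by simpa using hv)
      obtain ⟨δ, hδ, h1, h2⟩ := M.P_replicate bnd hγ x
      refine ⟨of (.r x y) * δ, mul_mem (r_mem _ _) hδ, ?_⟩
      rw [Rec.act_mul, Rec.act_cons, h1, h2, h, Rec.act_cons, top_r, sec_r]
      simp

theorem move_fst (u v : List ((T × Bool) × ZMod 3)) (h : u.map Prod.snd = v.map Prod.snd) :
    ∃ γ, (M.recX bnd).act γ u = v := by
  have hl : u.length = v.length := by simpa using congrArg List.length h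
  obtain ⟨γ, hγ, h1⟩ := M.P_trans bnd (u.map Prod.fst) (v.map Prod.fst) (by simpa using hl)
  refine ⟨γ, list_prod_ext ?_ ?_⟩
  · rw [recX, Rec.ext_act_fst, h1]
  · rw [recX, Rec.ext_act_snd, h]
    intro a b _ _
    exact M.fib_P ((M.recY bnd).secs_mem_closure _ (M.P_closed bnd) a _ hγ)

theorem ok_unique (h0 : ∀ τ, M.tgt τ ≠ M.s₀) (l l' : List T) :
    ∀ s, M.ok bnd l s → M.ok bnd (l ++ l') s → l' = [] := by
  induction l with
  | nil =>
    intro s h1 h2
    cases l' with
    | nil => rfl
    | cons τ l' => exact absurd (h2.1.trans h1) (h0 τ)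
  | cons τ l ih => intro s h1 h2; exact ih _ h1.2.2 h2.2.2

/-- one can add a nonzero amount to the fibre coordinate at any level that has a run -/
theorem bump (h0 : ∀ τ, M.tgt τ ≠ M.s₀) (l : List T) (c : T) (hok : M.ok bnd l (M.src c)) :
    ∃ b : ZMod 3, b ≠ 0 ∧ ∀ (a u : List ((T × Bool) × ZMod 3)) (y : T × Bool) (z : ZMod 3),
      a.length = l.length → ∃ γ u', u'.length = u.length ∧
        (M.recX bnd).act γ (a ++ (y, z) :: u) = a ++ (y, z + b) :: u' := by
  obtain ⟨b, hb, hiff⟩ := M.fib_secs_e bnd (l.map fun τ => (τ, false)) c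
  refine ⟨b, hiff.mpr ⟨l, rfl, hok⟩, fun a u y z ha => ?_⟩
  let a' : List ((T × Bool) × ZMod 3) := List.zip (l.map fun τ => (τ, false)) (a.map Prod.snd)
  have ha1 : a'.map Prod.fst = l.map fun τ => (τ, false) := List.map_fst_zip (by simp [ha])
  have ha2 : a'.map Prod.snd = a.map Prod.snd := List.map_snd_zip (by simp [ha])
  obtain ⟨γ₁, h₁⟩ := M.move_fst bnd (a ++ (y, z) :: u) (a' ++ (y, z) :: u) (by simp [ha2])
  have hfix : (M.recX bnd).act (of (.e c)) a' = a' := by
    refine list_prod_ext ?_ ?_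
    · rw [recX, Rec.ext_act_fst, act_e]
    · rw [recX, Rec.ext_act_snd]
      intro p q hpq hq
      obtain ⟨b', hb', hiff'⟩ := M.fib_secs_e bnd p c
      have : b' = 0 := by
        by_contra hne
        obtain ⟨l₁, rfl, hok₁⟩ := hiff'.mp hne
        rw [ha1] at hpq
        obtain ⟨l₂, l₃, rfl, h2, h3⟩ := List.map_eq_append_iff.mp hpq
        have : l₂ = l₁ := List.map_injective_iff.mpr (fun a b hab => by simpa using hab) h2
        subst this
        have := M.ok_unique bnd h0 l₂ l₃ _ hok₁ hok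
        subst this
        exact hq h3.symm
      rw [fib] at hb'
      rw [hb', this]; ext z; simp
  have h₂ : ∃ y' u', u'.length = u.length ∧
      (M.recX bnd).act (of (.e c)) (a' ++ (y, z) :: u) = a' ++ (y', z + b) :: u' := by
    rw [Rec.act_append, hfix, recX, Rec.ext_act_cons, Rec.ext_secs, ha1]
    rw [fib] at hb
    rw [hb]
    exact ⟨_, _, by simp, rfl⟩
  obtain ⟨y', u', hu', h₂⟩ := h₂
  obtain ⟨γ₃, h₃⟩ := M.move_fst bnd (a' ++ (y', z + b) :: u') (a ++ (y, z + b) :: u')
    (by simp [ha2])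
  exact ⟨γ₃ * (of (.e c) * γ₁), u', hu', by rw [Rec.act_mul, Rec.act_mul, h₁, h₂, h₃]⟩

theorem zmod3_cases (b z z' : ZMod 3) (hb : b ≠ 0) : z' = z ∨ z' = z + b ∨ z' = z + b + b := by
  revert b z z'; decide

theorem LT_of_runs (h0 : ∀ τ, M.tgt τ ≠ M.s₀)
    (hrun : ∀ n, ∃ (l : List T) (s : S), l.length = n ∧ M.ok bnd l s) : (M.recX bnd).LT := by
  have key : ∀ (n : ℕ) (a u v : List ((T × Bool) × ZMod 3)), u.length = n → v.length = n →
      ∃ γ, (M.recX bnd).act γ (a ++ u) = a ++ v := by
    intro n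
    induction n with
    | zero =>
      intro a u v hu hv
      rw [List.length_eq_zero_iff.mp hu, List.length_eq_zero_iff.mp hv]
      exact ⟨1, by simp⟩
    | succ n ih =>
      intro a u v hu hv
      obtain ⟨⟨y, z⟩, u, rfl⟩ := List.exists_cons_of_length_eq_add_one hu
      obtain ⟨⟨y', z'⟩, v, rfl⟩ := List.exists_cons_of_length_eq_add_one hv
      obtain ⟨l, s, hl, hok⟩ := hrun (a.length + 1)
      obtain ⟨c, l, rfl⟩ := List.exists_cons_of_length_eq_add_one hl
      obtain ⟨b, hb, hbump⟩ := M.bump bnd h0 l c hok.2.2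
      have hal : a.length = l.length := by simpa using hl.symm
      have step : ∃ γ u', u'.length = u.length ∧
          (M.recX bnd).act γ (a ++ (y, z) :: u) = a ++ (y, z') :: u' := by
        rcases zmod3_cases b z z' hb with rfl | rfl | rfl
        · exact ⟨1, u, rfl, by simp⟩
        · exact hbump a u y z hal
        · obtain ⟨γ, u', h1, h2⟩ := hbump a u y z hal
          obtain ⟨γ', u'', h1', h2'⟩ := hbump a u' y (z + b) hal
          exact ⟨γ' * γ, u'', h1'.trans h1, by rw [Rec.act_mul, h2, h2']⟩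
      obtain ⟨γ₁, u', hu', h₁⟩ := step
      obtain ⟨γ₂, h₂⟩ := M.move_fst bnd (a ++ (y, z') :: u') (a ++ (y', z') :: u') (by simp)
      obtain ⟨γ₃, h₃⟩ := ih (a ++ [(y', z')]) u' v (by simpa [hu'] using hu) (by simpa using hv)
      refine ⟨γ₃ * (γ₂ * γ₁), ?_⟩
      rw [Rec.act_mul, Rec.act_mul, h₁, h₂]
      simpa using h₃
  intro u v huv
  simpa using key v.length [] u v huv rfl

theorem LT_iff [Nonempty T] (h0 : ∀ τ, M.tgt τ ≠ M.s₀) :
    (M.recX bnd).LT ↔ ∀ n, ∃ (l : List T) (s : S), l.length = n ∧ M.ok bnd l s := by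
  refine ⟨fun h n => ?_, M.LT_of_runs bnd h0⟩
  by_contra hc
  exact M.not_LT_of_no_run bnd (n := n) (fun l s hl hok => hc ⟨l, s, hl, hok⟩) h

end Sys

end Pool.Agent.P.MP_b2749c_lc
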