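import Pool.Agent.P.MP_b2749c_lc.Univ
import Pool.Agent.P.MP_b2749c_lc.Trans

/-! The counter system of a while program with an input loader. -/

namespace Pool.Agent.P.MP_b2749c_lc

open Function (update)

abbrev St := List Prog ⊕ Fin 3

structure Tr where
  src : St
  tgt : St
  ctr : ℕ
  kind : Kind
  useN : Bool

/-- the transitions used when running `p` with continuation `K` -/
def trans : Prog → List Prog → List Tr
  | .inc i, K => [⟨.inl (.inc i :: K), .inl K, i, .inc, false⟩]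
  | .dec i, K => [⟨.inl (.dec i :: K), .inl K, i, .dec, false⟩]
  | .seq p q, K =>
    ⟨.inl (.seq p q :: K), .inl (p :: q :: K), 0, .nop, false⟩ :: (trans p (q :: K) ++ trans q K)
  | .loop i p, K =>
    ⟨.inl (.loop i p :: K), .inl K, i, .le, false⟩ ::
      ⟨.inl (.loop i p :: K), .inl (p :: .loop i p :: K), i, .gt, false⟩ ::
        trans p (.loop i p :: K)

inductive GStep : Tr → Prop
  | inc (i K) : GStep ⟨.inl (.inc i :: K), .inl K, i, .inc, false⟩
  | dec (i K) : GStep ⟨.inl (.dec i :: K), .inl K, i, .dec, false⟩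
  | seq (p q K) : GStep ⟨.inl (.seq p q :: K), .inl (p :: q :: K), 0, .nop, false⟩
  | loop0 (i p K) : GStep ⟨.inl (.loop i p :: K), .inl K, i, .le, false⟩
  | loopS (i p K) : GStep ⟨.inl (.loop i p :: K), .inl (p :: .loop i p :: K), i, .gt, false⟩

theorem gstep_of_mem (p : Prog) : ∀ K, ∀ x ∈ trans p K, GStep x := by
  induction p with
  | inc i => intro K x hx; simp only [trans, List.mem_singleton] at hx; subst hx; exact .inc _ _
  | dec i => intro K x hx; simp only [trans, List.mem_singleton] at hx; subst hx; exact .dec _ _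
  | seq p q ihp ihq =>
    intro K x hx
    simp only [trans, List.mem_cons, List.mem_append] at hx
    rcases hx with rfl | hx | hx
    · exact .seq _ _ _
    · exact ihp _ _ hx
    · exact ihq _ _ hx
  | loop i p ih =>
    intro K x hx
    simp only [trans, List.mem_cons] at hx
    rcases hx with rfl | rfl | hx
    · exact .loop0 _ _ _
    · exact .loopS _ _ _
    · exact ih _ _ hx

def t0 : Tr := ⟨.inr 0, .inr 1, 0, .nop, false⟩
def t1 : Tr := ⟨.inr 1, .inr 2, 0, .le, true⟩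
def t2 : Tr := ⟨.inr 2, .inr 1, 0, .inc, false⟩
def t3 (U : Prog) : Tr := ⟨.inr 1, .inl [U], 0, .gt, true⟩

def allTr (U : Prog) : List Tr := t0 :: t1 :: t2 :: t3 U :: trans U []

abbrev TT (U : Prog) := {x : Tr // x ∈ allTr U}

instance (U : Prog) : Finite (TT U) := (List.finite_toSet (allTr U)).to_subtype

instance (U : Prog) : Nonempty (TT U) := ⟨⟨t0, by simp [allTr]⟩⟩

def sys (U : Prog) : Sys (TT U) St where
  src x := x.1.src
  tgt x := x.1.tgt
  ctr x := x.1.ctr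
  kind x := x.1.kind
  s₀ := .inr 0

def bnd (U : Prog) (n : ℕ) (x : TT U) : ℕ := if x.1.useN then n else 0

theorem cases_allTr {U : Prog} {x : Tr} (h : x ∈ allTr U) :
    x = t0 ∨ x = t1 ∨ x = t2 ∨ x = t3 U ∨ GStep x := by
  simp only [allTr, List.mem_cons] at h
  rcases h with h | h | h | h | h
  · exact .inl h
  · exact .inr (.inl h)
  · exact .inr (.inr (.inl h))
  · exact .inr (.inr (.inr (.inl h)))
  · exact .inr (.inr (.inr (.inr (gstep_of_mem U [] x h))))

theorem tgt_ne (U : Prog) (x : TT U) : (sys U).tgt x ≠ (sys U).s₀ := by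
  obtain ⟨x, hx⟩ := x
  rcases cases_allTr hx with rfl | rfl | rfl | rfl | h
  · simp [sys, t0]
  · simp [sys, t1]
  · simp [sys, t2]
  · simp [sys, t3]
  · cases h <;> simp [sys]

/-- one step of the system with input `n` -/
def Step (U : Prog) (n : ℕ) (s : St) (v : ℕ → ℕ) (s' : St) (v' : ℕ → ℕ) : Prop :=
  ∃ x ∈ allTr U, x.src = s ∧ x.tgt = s' ∧ x.kind.guard (if x.useN then n else 0) (v x.ctr) ∧
    v' = update v x.ctr (x.kind.eff (v x.ctr))

def Reach (U : Prog) (n k : ℕ) (s : St) (v : ℕ → ℕ) : Prop :=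
  ∃ l : List (TT U), l.length = k ∧ (sys U).ok (bnd U n) l s ∧ (sys U).cnt l = v

theorem reach_zero (U : Prog) (n : ℕ) (s v) : Reach U n 0 s v ↔ s = .inr 0 ∧ v = fun _ => 0 := by
  constructor
  · rintro ⟨l, hl, h1, h2⟩
    rw [List.length_eq_zero_iff.mp hl] at h1 h2
    exact ⟨h1, h2.symm⟩
  · rintro ⟨rfl, rfl⟩
    exact ⟨[], rfl, rfl, rfl⟩

theorem reach_succ (U : Prog) (n k : ℕ) (s' v') :
    Reach U n (k + 1) s' v' ↔ ∃ s v, Reach U n k s v ∧ Step U n s v s' v' := by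
  constructor
  · rintro ⟨l, hl, h1, h2⟩
    obtain ⟨x, l, rfl⟩ := List.exists_cons_of_length_eq_add_one hl
    exact ⟨x.1.src, (sys U).cnt l, ⟨l, by simpa using hl, h1.2.2, rfl⟩,
      x.1, x.2, rfl, h1.1, h1.2.1, h2.symm⟩
  · rintro ⟨s, v, ⟨l, hl, h1, rfl⟩, x, hx, rfl, rfl, h3, rfl⟩
    exact ⟨⟨x, hx⟩ :: l, by simp [hl], ⟨rfl, h3, h1⟩, rfl⟩

/-! ### nontermination gives long runs -/

def Cov (U : Prog) : List Prog → Prop
  | [] => True
  | p :: K => trans p K ⊆ allTr U ∧ Cov U K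

def Term : List Prog → (ℕ → ℕ) → Prop
  | [], _ => True
  | p :: K, v => ∃ v', Big p v v' ∧ Term K v'

def Good (U : Prog) (n : ℕ) (s : St) (v : ℕ → ℕ) : Prop :=
  (∃ K, s = .inl K ∧ Cov U K ∧ ¬ Term K v) ∨ (s = .inr 0 ∧ v = fun _ => 0) ∨
    (s = .inr 1 ∧ ∃ m ≤ n + 1, v = update (fun _ => 0) 0 m) ∨
    (s = .inr 2 ∧ ∃ m ≤ n, v = update (fun _ => 0) 0 m)

theorem good_step {U : Prog} {n : ℕ}
    (hU : ¬ ∃ σ', Big U (update (fun _ => 0) 0 (n + 1)) σ') {s v} (h : Good U n s v) :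
    ∃ s' v', Step U n s v s' v' ∧ Good U n s' v' := by
  rcases h with ⟨K, rfl, hc, ht⟩ | ⟨rfl, rfl⟩ | ⟨rfl, m, hm, rfl⟩ | ⟨rfl, m, hm, rfl⟩
  · cases K with
    | nil => exact absurd trivial ht
    | cons p K =>
      cases p with
      | inc i =>
        refine ⟨_, _, ⟨_, hc.1 List.mem_cons_self, rfl, rfl, trivial, rfl⟩,
          .inl ⟨K, rfl, hc.2, fun h => ht ⟨_, .inc _ _, h⟩⟩⟩
      | dec i =>
        refine ⟨_, _, ⟨_, hc.1 List.mem_cons_self, rfl, rfl, trivial, rfl⟩,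
          .inl ⟨K, rfl, hc.2, fun h => ht ⟨_, .dec _ _, h⟩⟩⟩
      | seq p q =>
        refine ⟨_, _, ⟨_, hc.1 List.mem_cons_self, rfl, rfl, trivial, rfl⟩,
          .inl ⟨p :: q :: K, rfl, ⟨fun x hx => hc.1 (by simp [trans, hx]),
            fun x hx => hc.1 (by simp [trans, hx]), hc.2⟩, ?_⟩⟩
        simp only [Kind.eff, Function.update_eq_self]
        rintro ⟨v₁, h1, v₂, h2, h3⟩
        exact ht ⟨v₂, .seq h1 h2, h3⟩
      | loop i p =>
        by_cases h0 : v i ≤ 0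
        · refine ⟨_, _, ⟨_, hc.1 List.mem_cons_self, rfl, rfl, h0, rfl⟩,
            .inl ⟨K, rfl, hc.2, ?_⟩⟩
          simp only [Kind.eff, Function.update_eq_self]
          exact fun h => ht ⟨_, .loop0 h0, h⟩
        · refine ⟨_, _, ⟨_, hc.1 (List.mem_cons_of_mem _ List.mem_cons_self), rfl, rfl,
            not_le.mp h0, rfl⟩, .inl ⟨p :: .loop i p :: K, rfl,
              ⟨fun x hx => hc.1 (by simp [trans, hx]), hc⟩, ?_⟩⟩
          simp only [Kind.eff, Function.update_eq_self]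
          rintro ⟨v₁, h1, v₂, h2, h3⟩
          exact ht ⟨v₂, .loopS (not_le.mp h0) h1 h2, h3⟩
  · refine ⟨_, _, ⟨t0, by simp [allTr], rfl, rfl, trivial, rfl⟩,
      .inr (.inr (.inl ⟨rfl, 0, by omega, rfl⟩))⟩
  · by_cases h : m ≤ n
    · refine ⟨_, _, ⟨t1, by simp [allTr], rfl, rfl, by simpa [t1, Kind.guard] using h, rfl⟩,
        .inr (.inr (.inr ⟨rfl, m, h, ?_⟩))⟩
      simp [t1, Kind.eff]
    · refine ⟨_, _, ⟨t3 U, by simp [allTr], rfl, rfl, by simpa [t3, Kind.guard] using h, rfl⟩,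
        .inl ⟨[U], rfl, ⟨fun x hx => by simp [allTr, hx], trivial⟩, ?_⟩⟩
      have : m = n + 1 := by omega
      subst this
      simp only [t3, Kind.eff, Function.update_eq_self]
      rintro ⟨v', h1, -⟩
      exact hU ⟨v', h1⟩
  · refine ⟨_, _, ⟨t2, by simp [allTr], rfl, rfl, trivial, rfl⟩,
      .inr (.inr (.inl ⟨rfl, m + 1, by omega, ?_⟩))⟩
    simp [t2, Kind.eff]

theorem runs_of_not_halt {U : Prog} {n : ℕ}
    (hU : ¬ ∃ σ', Big U (update (fun _ => 0) 0 (n + 1)) σ') (k : ℕ) :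
    ∃ s v, Reach U n k s v ∧ Good U n s v := by
  induction k with
  | zero => exact ⟨_, _, (reach_zero U n _ _).mpr ⟨rfl, rfl⟩, .inr (.inl ⟨rfl, rfl⟩)⟩
  | succ k ih =>
    obtain ⟨s, v, h1, h2⟩ := ih
    obtain ⟨s', v', h3, h4⟩ := good_step hU h2
    exact ⟨s', v', (reach_succ U n k _ _).mpr ⟨s, v, h1, h3⟩, h4⟩

/-! ### termination bounds the length of runs -/

def Bd (U : Prog) (n : ℕ) : ℕ → St → (ℕ → ℕ) → Prop
  | 0, _, _ => False
  | m + 1, s, v => ∀ s' v', Step U n s v s' v' → Bd U n m s' v'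

theorem halt_of_step {U : Prog} {n : ℕ} {s v s' v'}
    (h : ∀ s'' v'', Step U n s v s'' v'' → s'' = s' ∧ v'' = v') (h' : ∃ m, Bd U n m s' v') :
    ∃ m, Bd U n m s v := by
  obtain ⟨m, hm⟩ := h'
  refine ⟨m + 1, fun s'' v'' hs => ?_⟩
  obtain ⟨rfl, rfl⟩ := h _ _ hs
  exact hm

theorem step_inl {U : Prog} {n : ℕ} {K v s' v'} (h : Step U n (.inl K) v s' v') :
    ∃ x, GStep x ∧ x.src = .inl K ∧ x.tgt = s' ∧ x.kind.guard 0 (v x.ctr) ∧
      v' = update v x.ctr (x.kind.eff (v x.ctr)) := by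
  obtain ⟨x, hx, h1, h2, h3, h4⟩ := h
  rcases cases_allTr hx with rfl | rfl | rfl | rfl | h
  · cases h1
  · cases h1
  · cases h1
  · cases h1
  · refine ⟨x, h, h1, h2, ?_, h4⟩
    cases h <;> exact h3

theorem halt_of_big {U : Prog} {n : ℕ} {p v v'} (h : Big p v v') :
    ∀ K, (∃ m, Bd U n m (.inl K) v') → ∃ m, Bd U n m (.inl (p :: K)) v := by
  induction h with
  | inc i σ =>
    intro K hK
    refine halt_of_step (fun s'' v'' hs => ?_) hK
    obtain ⟨x, hx, h1, rfl, h3, rfl⟩ := step_inl hs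
    cases hx <;> cases h1
    exact ⟨rfl, rfl⟩
  | dec i σ =>
    intro K hK
    refine halt_of_step (fun s'' v'' hs => ?_) hK
    obtain ⟨x, hx, h1, rfl, h3, rfl⟩ := step_inl hs
    cases hx <;> cases h1
    exact ⟨rfl, rfl⟩
  | seq _ _ ih1 ih2 =>
    intro K hK
    refine halt_of_step (fun s'' v'' hs => ?_) (ih1 _ (ih2 K hK))
    obtain ⟨x, hx, h1, rfl, h3, rfl⟩ := step_inl hs
    cases hx <;> cases h1
    exact ⟨rfl, by simp [Kind.eff]⟩
  | loop0 h0 =>
    intro K hK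
    refine halt_of_step (fun s'' v'' hs => ?_) hK
    obtain ⟨x, hx, h1, rfl, h3, rfl⟩ := step_inl hs
    cases hx <;> cases h1
    · exact ⟨rfl, by simp [Kind.eff]⟩
    · exact absurd h0 (not_le.mpr h3)
  | loopS h0 _ _ ih1 ih2 =>
    intro K hK
    refine halt_of_step (fun s'' v'' hs => ?_) (ih1 _ (ih2 K hK))
    obtain ⟨x, hx, h1, rfl, h3, rfl⟩ := step_inl hs
    cases hx <;> cases h1
    · exact absurd h0 (not_lt.mpr h3)
    · exact ⟨rfl, by simp [Kind.eff]⟩

theorem step_inr {U : Prog} {n : ℕ} {j v s' v'} (h : Step U n (.inr j) v s' v') :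
    (j = 0 ∧ s' = .inr 1 ∧ v' = v) ∨ (j = 1 ∧ s' = .inr 2 ∧ v 0 ≤ n ∧ v' = v) ∨
      (j = 2 ∧ s' = .inr 1 ∧ v' = update v 0 (v 0 + 1)) ∨
      (j = 1 ∧ s' = .inl [U] ∧ n < v 0 ∧ v' = v) := by
  obtain ⟨x, hx, h1, rfl, h3, rfl⟩ := h
  rcases cases_allTr hx with rfl | rfl | rfl | rfl | h
  · cases h1; exact .inl ⟨rfl, rfl, by simp [t0, Kind.eff]⟩
  · cases h1; exact .inr (.inl ⟨rfl, rfl, h3, by simp [t1, Kind.eff]⟩)
  · cases h1; exact .inr (.inr (.inl ⟨rfl, rfl, rfl⟩))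
  · cases h1; exact .inr (.inr (.inr ⟨rfl, rfl, h3, by simp [t3, Kind.eff]⟩))
  · cases h <;> cases h1

theorem halt_start {U : Prog} {n : ℕ} (hU : ∃ σ', Big U (update (fun _ => 0) 0 (n + 1)) σ') :
    ∃ m, Bd U n m (.inr 0) (fun _ => 0) := by
  obtain ⟨σ', hU⟩ := hU
  have h1 : ∃ m, Bd U n m (.inl [U]) (update (fun _ => 0) 0 (n + 1)) := by
    refine halt_of_big hU [] ⟨1, fun s' v' hs => ?_⟩
    obtain ⟨x, hx, h1, -⟩ := step_inl hs
    cases hx <;> cases h1
  have h2 : ∀ j ≤ n + 1, ∃ m, Bd U n m (.inr 1) (update (fun _ => 0) 0 (n + 1 - j)) := by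
    intro j
    induction j with
    | zero =>
      intro _
      refine halt_of_step (fun s'' v'' hs => ?_) h1
      rcases step_inr hs with h | h | h | h
      · exact absurd h.1 (by decide)
      · exact absurd h.2.2.1 (by simp)
      · exact absurd h.1 (by decide)
      · exact ⟨h.2.1, h.2.2.2⟩
    | succ j ih =>
      intro hj
      have h3 : ∃ m, Bd U n m (.inr 2) (update (fun _ => 0) 0 (n + 1 - (j + 1))) := by
        refine halt_of_step (fun s'' v'' hs => ?_) (ih (by omega))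
        rcases step_inr hs with h | h | h | h
        · exact absurd h.1 (by decide)
        · exact absurd h.1 (by decide)
        · refine ⟨h.2.1, ?_⟩
          rw [h.2.2, Function.update_idem, Function.update_self]
          congr 1; omega
        · exact absurd h.1 (by decide)
      refine halt_of_step (fun s'' v'' hs => ?_) h3
      rcases step_inr hs with h | h | h | h
      · exact absurd h.1 (by decide)
      · exact ⟨h.2.1, h.2.2.2⟩
      · exact absurd h.1 (by decide)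
      · have := h.2.2.1
        rw [Function.update_self] at this
        omega
  refine halt_of_step (fun s'' v'' hs => ?_) (h2 (n + 1) le_rfl)
  rcases step_inr hs with h | h | h | h
  · exact ⟨h.2.1, by rw [h.2.2]; simp⟩
  · exact absurd h.1 (by decide)
  · exact absurd h.1 (by decide)
  · exact absurd h.1 (by decide)

theorem bd_of_reach {U : Prog} {n : ℕ} (k : ℕ) : ∀ m, Bd U n (m + k) (.inr 0) (fun _ => 0) →
    ∀ s v, Reach U n k s v → Bd U n m s v := by
  induction k with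
  | zero =>
    intro m hm s v h
    obtain ⟨rfl, rfl⟩ := (reach_zero U n s v).mp h
    exact hm
  | succ k ih =>
    intro m hm s' v' h
    obtain ⟨s, v, h1, h2⟩ := (reach_succ U n k s' v').mp h
    exact ih (m + 1) (by rwa [add_assoc, add_comm 1 k]) s v h1 s' v' h2

theorem LT_iff_not_halt (U : Prog) (n : ℕ) :
    ((sys U).recX (bnd U n)).LT ↔ ¬ ∃ σ', Big U (update (fun _ => 0) 0 (n + 1)) σ' := by
  rw [(sys U).LT_iff (bnd U n) (tgt_ne U)]
  constructor
  · intro h hU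
    obtain ⟨m, hm⟩ := halt_start hU
    obtain ⟨l, s, hl, hok⟩ := h m
    exact bd_of_reach m 0 (by rwa [zero_add]) s _ ⟨l, hl, hok, rfl⟩
  · intro hU k
    obtain ⟨s, v, ⟨l, hl, hok, -⟩, -⟩ := runs_of_not_halt hU k
    exact ⟨l, s, hl, hok⟩

end Pool.Agent.P.MP_b2749c_lc
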