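import Pool.Agent.P.MP_b2749c_lc.Wreath

/-! The self-similar group attached to a counter system: definitions and counter lemmas. -/

namespace Pool.Agent.P.MP_b2749c_lc

open FreeGroup (of)

inductive Kind | inc | dec | nop | le | gt
  deriving DecidableEq

def Kind.eff : Kind → ℕ → ℕ
  | .inc, m => m + 1
  | .dec, m => m - 1
  | _, m => m

def Kind.guard : Kind → ℕ → ℕ → Prop
  | .le, N, m => m ≤ N
  | .gt, N, m => N < m
  | _, _, _ => True

/-- a counter system with transitions `T` and states `S` -/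
structure Sys (T S : Type) where
  src : T → S
  tgt : T → S
  ctr : T → ℕ
  kind : T → Kind
  s₀ : S

inductive Gen (T : Type)
  | t (c : T) | a (c : T) | e (c : T) | r (y y' : T × Bool) | D (y y' : T × Bool)

instance {T : Type} [Finite T] : Finite (Gen T) := by
  let f : T ⊕ T ⊕ T ⊕ ((T × Bool) × (T × Bool)) ⊕ ((T × Bool) × (T × Bool)) → Gen T :=
    Sum.elim Gen.t (Sum.elim Gen.a (Sum.elim Gen.e
      (Sum.elim (fun p => Gen.r p.1 p.2) (fun p => Gen.D p.1 p.2))))
  refine Finite.of_surjective f ?_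
  intro g
  cases g with
  | t c => exact ⟨.inl c, rfl⟩
  | a c => exact ⟨.inr (.inl c), rfl⟩
  | e c => exact ⟨.inr (.inr (.inl c)), rfl⟩
  | r y y' => exact ⟨.inr (.inr (.inr (.inl (y, y')))), rfl⟩
  | D y y' => exact ⟨.inr (.inr (.inr (.inr (y, y')))), rfl⟩

def idx : ℕ → ℕ
  | 0 => 0
  | k + 1 => 2 * idx k + 1

/-- the word `t^(idx N) a t^(-idx N)` -/
def Bw {T : Type} (c : T) (s : Bool) (N : ℕ) : List (Gen T × Bool) :=
  List.replicate (idx N) (Gen.t c, true) ++ [(Gen.a c, s)] ++
    List.replicate (idx N) (Gen.t c, false)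

def guardW {T : Type} (c : T) : Kind → ℕ → List (Gen T × Bool)
  | .le, N => [(Gen.e c, true)] ++ Bw c true N ++ [(Gen.e c, false)] ++ Bw c false N
  | .gt, N => [(Gen.e c, true)] ++ Bw c true N ++ [(Gen.e c, true)] ++ Bw c false N
  | _, _ => [(Gen.e c, true)]

def tW {T : Type} (c : T) : Kind → Bool → List (Gen T × Bool)
  | .inc, true => []
  | .dec, _ => [(Gen.t c, true), (Gen.t c, true)]
  | _, _ => [(Gen.t c, true)]

def aW {T : Type} (c : T) : Kind → Bool → List (Gen T × Bool)
  | .inc, false => []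
  | .dec, _ => [(Gen.t c, true), (Gen.a c, true), (Gen.t c, false)]
  | _, _ => [(Gen.a c, true)]

theorem mk_nil {G : Type} : FreeGroup.mk ([] : List (G × Bool)) = 1 := rfl

theorem mk_cons_true {G : Type} (x : G) (l : List (G × Bool)) :
    FreeGroup.mk ((x, true) :: l) = of x * FreeGroup.mk l := rfl

theorem mk_cons_false {G : Type} (x : G) (l : List (G × Bool)) :
    FreeGroup.mk ((x, false) :: l) = (of x)⁻¹ * FreeGroup.mk l := rfl

theorem mk_append {G : Type} (l l' : List (G × Bool)) :
    FreeGroup.mk (l ++ l') = FreeGroup.mk l * FreeGroup.mk l' := FreeGroup.mul_mk.symm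

theorem mk_replicate_true {G : Type} (x : G) (n : ℕ) :
    FreeGroup.mk (List.replicate n (x, true)) = of x ^ n := by
  induction n with
  | zero => rfl
  | succ n ih => rw [List.replicate_succ, mk_cons_true, ih, pow_succ']

theorem mk_replicate_false {G : Type} (x : G) (n : ℕ) :
    FreeGroup.mk (List.replicate n (x, false)) = (of x ^ n)⁻¹ := by
  induction n with
  | zero => rfl
  | succ n ih => rw [List.replicate_succ, mk_cons_false, ih, pow_succ, mul_inv_rev]

/-- `t^i a t^(-i)` -/
def A {T : Type} (c : T) (i : ℕ) : FreeGroup (Gen T) :=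
  of (Gen.t c) ^ i * of (Gen.a c) * (of (Gen.t c) ^ i)⁻¹

theorem mk_Bw {T : Type} (c : T) (N : ℕ) : FreeGroup.mk (Bw c true N) = A c (idx N) := by
  rw [Bw, mk_append, mk_append, mk_replicate_true, mk_replicate_false, mk_cons_true, mk_nil,
    mul_one, A]

theorem mk_Bw' {T : Type} (c : T) (N : ℕ) : FreeGroup.mk (Bw c false N) = (A c (idx N))⁻¹ := by
  rw [Bw, mk_append, mk_append, mk_replicate_true, mk_replicate_false, mk_cons_false, mk_nil,
    mul_one, A]
  group

namespace Sys

variable {T S : Type} (M : Sys T S)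

/-- counter values after a run (most recent transition first) -/
def cnt : List T → ℕ → ℕ
  | [] => fun _ => 0
  | τ :: l => Function.update (cnt l) (M.ctr τ) ((M.kind τ).eff (cnt l (M.ctr τ)))

/-- legal runs from the start configuration ending in a given state -/
def ok (bnd : T → ℕ) : List T → S → Prop
  | [], s => s = M.s₀
  | τ :: l, s => M.tgt τ = s ∧ (M.kind τ).guard (bnd τ) (M.cnt l (M.ctr τ)) ∧ ok bnd l (M.src τ)

/-- the effect of transition `τ` on the counter of `c` -/
def lk (τ c : T) : Kind := if M.ctr τ = M.ctr c then M.kind τ else .nop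

theorem cnt_cons (τ c : T) (l : List T) :
    M.cnt (τ :: l) (M.ctr c) = (M.lk τ c).eff (M.cnt l (M.ctr c)) := by
  unfold lk
  split_ifs with h
  · rw [cnt, ← h]; simp
  · rw [cnt, Function.update_of_ne (Ne.symm h)]; rfl

def tFun (c : T) (y : T × Bool) : T × Bool := if M.lk y.1 c = .inc then (y.1, !y.2) else y

theorem tFun_invol (c : T) : Function.Involutive (M.tFun c) := by
  intro y
  unfold tFun
  by_cases h : M.lk y.1 c = .inc <;> simp [h]

open Classical in
noncomputable def σ : Gen T → Equiv.Perm (T × Bool)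
  | .t c => (M.tFun_invol c).toPerm
  | .r y y' => Equiv.swap y y'
  | _ => 1

open Classical in
noncomputable def hN : Gen T → T × Bool → ℕ → List (Gen T × Bool)
  | .t c, y, _ => tW c (M.lk y.1 c) y.2
  | .a c, y, _ => aW c (M.lk y.1 c) y.2
  | .e c, y, N => if y.2 = false ∧ M.tgt y.1 = M.src c then guardW y.1 (M.kind y.1) N else []
  | .r _ _, _, _ => []
  | .D y y', x, _ => if x.2 then [(Gen.r y y', true)] else [(Gen.D y y', true)]

noncomputable def recY (bnd : T → ℕ) : Rec (T × Bool) (Gen T) where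
  σ := M.σ
  h g y := M.hN g y (bnd y.1)

open Classical in
noncomputable def φ : Gen T → Equiv.Perm (ZMod 3)
  | .a _ => Equiv.neg (ZMod 3)
  | .e c => if M.src c = M.s₀ then Equiv.addRight 1 else 1
  | _ => 1

noncomputable def fib : FreeGroup (Gen T) →* Equiv.Perm (ZMod 3) := FreeGroup.lift M.φ

variable (bnd : T → ℕ)

theorem top_t (c : T) (y : T × Bool) : (M.recY bnd).top (of (.t c)) y = M.tFun c y := by
  simp [recY, σ]

theorem top_a (c : T) (y : T × Bool) : (M.recY bnd).top (of (.a c)) y = y := by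
  simp [recY, σ]

theorem top_e (c : T) (y : T × Bool) : (M.recY bnd).top (of (.e c)) y = y := by
  simp [recY, σ]

theorem sec_t (c : T) (y : T × Bool) :
    (M.recY bnd).sec (of (.t c)) y = FreeGroup.mk (tW c (M.lk y.1 c) y.2) := by
  simp [recY, hN]

theorem sec_a (c : T) (y : T × Bool) :
    (M.recY bnd).sec (of (.a c)) y = FreeGroup.mk (aW c (M.lk y.1 c) y.2) := by
  simp [recY, hN]

theorem sec_conj_a (c : T) (g : FreeGroup (Gen T)) (y : T × Bool) :
    (M.recY bnd).sec (g * of (.a c) * g⁻¹) ((M.recY bnd).top g y) =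
      (M.recY bnd).sec g y * (M.recY bnd).sec (of (.a c)) y * ((M.recY bnd).sec g y)⁻¹ := by
  rw [Rec.sec_mul, Rec.sec_mul, Rec.top_inv_top, top_a, Rec.sec_inv_top]

theorem top_A (c : T) (i : ℕ) (y : T × Bool) : (M.recY bnd).top (A c i) y = y := by
  rw [A, Rec.top_mul, Rec.top_mul, top_a, Rec.top_top_inv]

theorem pow_t_of_ne (c : T) (y : T × Bool) (h : M.lk y.1 c ≠ .inc) (i : ℕ) :
    (M.recY bnd).top (of (.t c) ^ i) y = y ∧
      (M.recY bnd).sec (of (.t c) ^ i) y = FreeGroup.mk (tW c (M.lk y.1 c) y.2) ^ i := by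
  induction i with
  | zero => simp
  | succ i ih =>
    have h1 : (M.recY bnd).top (of (.t c)) y = y := by rw [top_t, tFun, if_neg h]
    rw [pow_succ', Rec.top_mul, Rec.sec_mul, ih.1, ih.2, h1, sec_t, pow_succ']
    exact ⟨rfl, rfl⟩

theorem pow_t_inc (c τ : T) (h : M.lk τ c = .inc) (i : ℕ) :
    (M.recY bnd).top (of (.t c) ^ (2 * i + 1)) (τ, true) = (τ, false) ∧
      (M.recY bnd).sec (of (.t c) ^ (2 * i + 1)) (τ, true) = of (.t c) ^ i := by
  have h1 : (M.recY bnd).top (of (.t c)) (τ, true) = (τ, false) := by rw [top_t]; simp [tFun, h]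
  have h2 : (M.recY bnd).top (of (.t c)) (τ, false) = (τ, true) := by rw [top_t]; simp [tFun, h]
  have h3 : (M.recY bnd).sec (of (.t c)) (τ, true) = 1 := by rw [sec_t, h]; rfl
  have h4 : (M.recY bnd).sec (of (.t c)) (τ, false) = of (.t c) := by rw [sec_t, h]; rfl
  induction i with
  | zero => simpa using ⟨by simpa using h1, by simpa using h3⟩
  | succ i ih =>
    have : (of (Gen.t c) : FreeGroup (Gen T)) ^ (2 * (i + 1) + 1) =
        of (.t c) * (of (.t c) * of (.t c) ^ (2 * i + 1)) := by
      rw [← pow_succ', ← pow_succ']; rfl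
    rw [this, Rec.top_mul, Rec.top_mul, Rec.sec_mul, Rec.sec_mul, Rec.top_mul, ih.1, ih.2,
      h2, h1, h3, h4, one_mul, pow_succ']
    exact ⟨rfl, rfl⟩

theorem sec_A_inc_zero (c τ : T) (h : M.lk τ c = .inc) :
    (M.recY bnd).sec (A c 0) (τ, false) = 1 := by
  have : A c 0 = of (.a c) := by simp [A]
  rw [this, sec_a, h]; rfl

theorem sec_A_inc_succ (c τ : T) (h : M.lk τ c = .inc) (i : ℕ) :
    (M.recY bnd).sec (A c (2 * i + 1)) (τ, false) = A c i := by
  have h1 := M.pow_t_inc bnd c τ h i
  rw [← h1.1, A, sec_conj_a, h1.2, sec_a, h]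
  rfl

theorem sec_A_dec (c τ : T) (h : M.lk τ c = .dec) (i : ℕ) :
    (M.recY bnd).sec (A c i) (τ, false) = A c (2 * i + 1) := by
  have h1 := M.pow_t_of_ne bnd c (τ, false) (by simp [h]) i
  conv_lhs => rw [← h1.1, A, sec_conj_a, h1.2, sec_a]
  simp only [h, tW, aW, mk_cons_true, mk_cons_false, mk_nil, mul_one, A]
  rw [← pow_two, ← pow_mul, pow_succ]
  group

theorem sec_A_other (c τ : T) (h : M.lk τ c ≠ .inc) (h' : M.lk τ c ≠ .dec) (i : ℕ) :
    (M.recY bnd).sec (A c i) (τ, false) = A c i := by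
  have h1 := M.pow_t_of_ne bnd c (τ, false) h i
  conv_lhs => rw [← h1.1, A, sec_conj_a, h1.2, sec_a]
  have e1 : FreeGroup.mk (tW c (M.lk τ c) false) = of (.t c) := by
    cases hk : M.lk τ c <;> first | rfl | exact absurd hk h | exact absurd hk h'
  have e2 : FreeGroup.mk (aW c (M.lk τ c) false) = of (.a c) := by
    cases hk : M.lk τ c <;> first | rfl | exact absurd hk h | exact absurd hk h'
  simp only [e1, e2, A]

theorem fib_A (c : T) (i : ℕ) : M.fib (A c i) = Equiv.neg (ZMod 3) := by
  simp [A, fib, φ]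

/-- the section of `A c (idx k)` along a run reads whether the counter exceeds `k` -/
theorem fib_secs_A (c : T) (l : List T) : ∀ k : ℕ,
    M.fib ((M.recY bnd).secs (A c (idx k)) (l.map fun τ => (τ, false))) =
      if M.cnt l (M.ctr c) ≤ k then Equiv.neg (ZMod 3) else 1 := by
  induction l with
  | nil => intro k; simp [cnt, fib_A]
  | cons τ l ih =>
    intro k
    rw [List.map_cons, Rec.secs_cons, cnt_cons]
    by_cases h : M.lk τ c = .inc
    · cases k with
      | zero => rw [idx, M.sec_A_inc_zero bnd c τ h, h]; simp [Kind.eff]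
      | succ k => rw [idx, M.sec_A_inc_succ bnd c τ h, ih, h]; simp [Kind.eff]
    · by_cases h' : M.lk τ c = .dec
      · rw [M.sec_A_dec bnd c τ h', ← idx, ih, h']
        simp [Kind.eff]
      · rw [M.sec_A_other bnd c τ h h', ih]
        have : (M.lk τ c).eff (M.cnt l (M.ctr c)) = M.cnt l (M.ctr c) := by
          cases hk : M.lk τ c <;> first | rfl | exact absurd hk h | exact absurd hk h'
        rw [this]

theorem a_mem_fixLevel (n : ℕ) : ∀ c : T, of (Gen.a c) ∈ (M.recY bnd).fixLevel n := by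
  induction n with
  | zero => intro c w hw; rw [List.length_eq_zero_iff.mp hw]; rfl
  | succ n ih =>
    intro c
    refine (M.recY bnd).mem_fixLevel_succ (M.top_a bnd c) fun y => ?_
    rw [sec_a]
    have h1 := (M.recY bnd).conj_mem_fixLevel (ih c) (of (.t c))
    have h2 := ih c
    have h3 := ((M.recY bnd).fixLevel n).one_mem
    cases M.lk y.1 c <;> cases y.2 <;>
      simp only [aW, mk_cons_true, mk_cons_false, mk_nil, mul_one, ← mul_assoc] <;> assumption

theorem A_mem_fixLevel (n : ℕ) (c : T) (i : ℕ) : A c i ∈ (M.recY bnd).fixLevel n :=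
  (M.recY bnd).conj_mem_fixLevel (M.a_mem_fixLevel bnd n c) _

open Classical in
theorem sec_e (c : T) (y : T × Bool) :
    (M.recY bnd).sec (of (.e c)) y =
      if y.2 = false ∧ M.tgt y.1 = M.src c then
        FreeGroup.mk (guardW y.1 (M.kind y.1) (bnd y.1)) else 1 := by
  simp only [recY, Rec.sec_of, hN]
  split_ifs <;> rfl

theorem mk_guardW_le (c : T) (N : ℕ) : FreeGroup.mk (guardW c .le N) =
    of (.e c) * A c (idx N) * (of (.e c))⁻¹ * (A c (idx N))⁻¹ := by
  simp only [guardW, mk_append, mk_Bw, mk_Bw', mk_cons_true, mk_cons_false, mk_nil, mul_one]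

theorem mk_guardW_gt (c : T) (N : ℕ) : FreeGroup.mk (guardW c .gt N) =
    of (.e c) * A c (idx N) * of (.e c) * (A c (idx N))⁻¹ := by
  simp only [guardW, mk_append, mk_Bw, mk_Bw', mk_cons_true, mk_nil, mul_one]

theorem e_mem_fixLevel (n : ℕ) : ∀ c : T, of (Gen.e c) ∈ (M.recY bnd).fixLevel n := by
  induction n with
  | zero => intro c w hw; rw [List.length_eq_zero_iff.mp hw]; rfl
  | succ n ih =>
    intro c
    refine (M.recY bnd).mem_fixLevel_succ (M.top_e bnd c) fun y => ?_
    rw [sec_e]
    split_ifs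
    · have h1 := ih y.1
      have h2 := M.A_mem_fixLevel bnd n y.1 (idx (bnd y.1))
      cases M.kind y.1
      · exact h1
      · exact h1
      · exact h1
      · rw [mk_guardW_le]; exact mul_mem (mul_mem (mul_mem h1 h2) (inv_mem h1)) (inv_mem h2)
      · rw [mk_guardW_gt]; exact mul_mem (mul_mem (mul_mem h1 h2) h1) (inv_mem h2)
    · exact one_mem _

theorem act_e (c : T) (w : List (T × Bool)) : (M.recY bnd).act (of (.e c)) w = w :=
  M.e_mem_fixLevel bnd _ c w rfl

theorem act_e_inv (c : T) (w : List (T × Bool)) : (M.recY bnd).act (of (.e c))⁻¹ w = w :=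
  inv_mem (M.e_mem_fixLevel bnd _ c) w rfl

theorem act_A (c : T) (i : ℕ) (w : List (T × Bool)) : (M.recY bnd).act (A c i) w = w :=
  M.A_mem_fixLevel bnd _ c i w rfl

theorem act_A_inv (c : T) (i : ℕ) (w : List (T × Bool)) : (M.recY bnd).act (A c i)⁻¹ w = w :=
  inv_mem (M.A_mem_fixLevel bnd _ c i) w rfl

theorem perm_le_neg (b : ZMod 3) :
    Equiv.addRight b * Equiv.neg (ZMod 3) * (Equiv.addRight b)⁻¹ * (Equiv.neg (ZMod 3))⁻¹ =
      Equiv.addRight (2 * b) := by
  ext z; revert b z; decide

theorem perm_gt_neg (b : ZMod 3) :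
    Equiv.addRight b * Equiv.neg (ZMod 3) * Equiv.addRight b * (Equiv.neg (ZMod 3))⁻¹ =
      Equiv.addRight 0 := by
  ext z; revert b z; decide

theorem perm_gt_one (b : ZMod 3) :
    Equiv.addRight b * 1 * Equiv.addRight b * (1 : Equiv.Perm (ZMod 3))⁻¹ =
      Equiv.addRight (2 * b) := by
  ext z; revert b z; decide

theorem two_mul_ne {b : ZMod 3} (h : b ≠ 0) : 2 * b ≠ 0 := by revert b; decide

/-- the marker translates the fibre by a nonzero amount exactly along legal runs -/
theorem fib_secs_e (w : List (T × Bool)) : ∀ c : T, ∃ b : ZMod 3,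
    M.fib ((M.recY bnd).secs (of (.e c)) w) = Equiv.addRight b ∧
      (b ≠ 0 ↔ ∃ l : List T, w = l.map (fun τ => (τ, false)) ∧ M.ok bnd l (M.src c)) := by
  induction w with
  | nil =>
    intro c
    by_cases h : M.src c = M.s₀
    · refine ⟨1, by simp [fib, φ, h], ?_⟩
      simp only [ne_eq, one_ne_zero, not_false_eq_true, true_iff]
      exact ⟨[], rfl, h⟩
    · refine ⟨0, by simp [fib, φ, h], ?_⟩
      simp only [ne_eq, not_true_eq_false, false_iff]
      rintro ⟨l, hl, hok⟩
      cases l with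
      | nil => exact h hok
      | cons _ _ => simp at hl
  | cons y w ih =>
    intro c
    obtain ⟨τ, r⟩ := y
    rw [Rec.secs_cons, sec_e]
    split_ifs with h
    · obtain ⟨b, hb, hiff⟩ := ih τ
      obtain ⟨rfl, htgt⟩ := h
      simp only at htgt
      have key : (∃ l : List T, (τ, false) :: w = l.map (fun τ => (τ, false)) ∧
          M.ok bnd l (M.src c)) ↔ ∃ l : List T, w = l.map (fun τ => (τ, false)) ∧
            (M.kind τ).guard (bnd τ) (M.cnt l (M.ctr τ)) ∧ M.ok bnd l (M.src τ) := by
        constructor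
        · rintro ⟨l, hl, hok⟩
          cases l with
          | nil => simp at hl
          | cons τ' l =>
            simp only [List.map_cons, List.cons.injEq, Prod.mk.injEq, and_true] at hl
            obtain ⟨rfl, rfl⟩ := hl
            exact ⟨l, rfl, hok.2.1, hok.2.2⟩
        · rintro ⟨l, rfl, h1, h2⟩
          exact ⟨τ :: l, rfl, htgt, h1, h2⟩
      rw [key]
      have hinj : ∀ l l' : List T, l.map (fun τ => (τ, false)) = l'.map (fun τ => (τ, false)) →
          l = l' := fun l l' h =>
        List.map_injective_iff.mpr (fun a b hab => by simpa using hab) h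
      simp only
      cases hk : M.kind τ
      · exact ⟨b, hb, by simpa [Kind.guard] using hiff⟩
      · exact ⟨b, hb, by simpa [Kind.guard] using hiff⟩
      · exact ⟨b, hb, by simpa [Kind.guard] using hiff⟩
      · rw [mk_guardW_le]
        simp only [Rec.secs_mul, act_A, act_e_inv, act_A_inv, map_mul, Rec.secs_inv, map_inv, hb,
          Kind.guard]
        by_cases hb0 : b = 0
        · refine ⟨0, by simp [hb0], ?_⟩
          simp only [ne_eq, not_true_eq_false, false_iff]
          rintro ⟨l, hl, -, hok⟩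
          exact hiff.mpr ⟨l, hl, hok⟩ hb0
        · obtain ⟨l, rfl, hok⟩ := hiff.mp hb0
          rw [fib_secs_A]
          split_ifs with hc
          · exact ⟨2 * b, perm_le_neg b, fun _ => ⟨l, rfl, hc, hok⟩, fun _ => two_mul_ne hb0⟩
          · refine ⟨0, by ext z; simp, ?_⟩
            simp only [ne_eq, not_true_eq_false, false_iff]
            rintro ⟨l', hl, hc', -⟩
            exact hc (hinj _ _ hl ▸ hc')
      · rw [mk_guardW_gt]
        simp only [Rec.secs_mul, act_A, act_e, act_A_inv, map_mul, Rec.secs_inv, map_inv, hb,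
          Kind.guard]
        by_cases hb0 : b = 0
        · refine ⟨0, by simp [hb0], ?_⟩
          simp only [ne_eq, not_true_eq_false, false_iff]
          rintro ⟨l, hl, -, hok⟩
          exact hiff.mpr ⟨l, hl, hok⟩ hb0
        · obtain ⟨l, rfl, hok⟩ := hiff.mp hb0
          rw [fib_secs_A]
          split_ifs with hc
          · refine ⟨0, perm_gt_neg b, ?_⟩
            simp only [ne_eq, not_true_eq_false, false_iff]
            rintro ⟨l', hl, hc', -⟩
            exact absurd (hinj _ _ hl ▸ hc') (not_lt.mpr hc)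
          · exact ⟨2 * b, perm_gt_one b, fun _ => ⟨l, rfl, not_le.mp hc, hok⟩,
              fun _ => two_mul_ne hb0⟩
    · refine ⟨0, by simp, ?_⟩
      simp only [ne_eq, not_true_eq_false, false_iff]
      rintro ⟨l, hl, hok⟩
      cases l with
      | nil => simp at hl
      | cons τ' l =>
        simp only [List.map_cons, List.cons.injEq, Prod.mk.injEq] at hl
        obtain ⟨⟨rfl, rfl⟩, rfl⟩ := hl
        exact h ⟨rfl, hok.1⟩

end Sys

end Pool.Agent.P.MP_b2749c_lc
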