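import Pool.Agent.P.MP_b2749c_lc.While

/-! A while program with undecidable halting set. -/

namespace Pool.Agent.P.MP_b2749c_lc

open Function (update)

theorem search_loop {g : ℕ → ℕ → ℕ} {q : Prog}
    (hq : ∀ σ, ∃ σ', Big q σ σ' ∧ σ' 2 = g (σ 0) (σ 1) ∧ σ' 0 = σ 0 ∧ σ' 1 = σ 1)
    (σ : ℕ → ℕ) (hσ : σ 2 = g (σ 0) (σ 1)) :
    (∃ σ', Big (.loop 2 (.seq (.inc 1) q)) σ σ') ↔ ∃ k, g (σ 0) (σ 1 + k) = 0 := by
  have hbody : ∀ σ, ∃ σ', Big (.seq (.inc 1) q) σ σ' ∧ σ' 2 = g (σ' 0) (σ' 1) ∧ σ' 0 = σ 0 ∧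
      σ' 1 = σ 1 + 1 := by
    intro σ
    obtain ⟨σ', h1, h2, h3, h4⟩ := hq (update σ 1 (σ 1 + 1))
    exact ⟨σ', .seq (.inc _ _) h1, by rw [h2, h3, h4], by simpa using h3, by simpa using h4⟩
  constructor
  · rintro ⟨σ', h⟩
    generalize hP : Prog.loop 2 (.seq (.inc 1) q) = P at h
    induction h with
    | inc => cases hP
    | dec => cases hP
    | seq => cases hP
    | loop0 h0 => cases hP; exact ⟨0, by rw [add_zero, ← hσ]; omega⟩
    | @loopS i p σ σ₁ σ₂ h0 h1 h2 _ ih =>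
      cases hP
      obtain ⟨σ₁', b1, b2, b3, b4⟩ := hbody σ
      cases h1.det b1
      obtain ⟨k, hk⟩ := ih b2 rfl
      exact ⟨k + 1, by rw [b3, b4, add_assoc, add_comm 1 k] at hk; exact hk⟩
  · rintro ⟨k, hk⟩
    induction k generalizing σ with
    | zero => exact ⟨σ, .loop0 (by rw [hσ]; exact hk.le)⟩
    | succ k ih =>
      by_cases h0 : σ 2 = 0
      · exact ⟨σ, .loop0 h0.le⟩
      · obtain ⟨σ₁, b1, b2, b3, b4⟩ := hbody σ
        obtain ⟨σ₂, h⟩ := ih σ₁ b2 (by rw [b3, b4, add_assoc, add_comm 1 k]; exact hk)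
        exact ⟨σ₂, .loopS (by omega) b1 h⟩

theorem exists_search {g : ℕ → ℕ → ℕ} (hg : Primrec₂ g) :
    ∃ U : Prog, ∀ σ, (∃ σ', Big U σ σ') ↔ ∃ k, g (σ 0) (σ 1 + k) = 0 := by
  obtain ⟨q, hq⟩ := spec_of_primrec' (Nat.Primrec'.prim_iff₂.mpr hg) (fun i => i.val) 2 3
    (fun i => by have := i.2; omega) (by omega) (fun i => by have := i.2; omega)
  have hq' : ∀ σ, ∃ σ', Big q σ σ' ∧ σ' 2 = g (σ 0) (σ 1) ∧ σ' 0 = σ 0 ∧ σ' 1 = σ 1 := by
    intro σ
    obtain ⟨σ', h1, h2, h3⟩ := hq σ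
    exact ⟨σ', h1, h2, h3 0 (by omega) (by omega), h3 1 (by omega) (by omega)⟩
  refine ⟨.seq q (.loop 2 (.seq (.inc 1) q)), fun σ => ?_⟩
  obtain ⟨σ₁, h1, h2, h3, h4⟩ := hq' σ
  have := search_loop hq' σ₁ (by rw [h2, h3, h4])
  rw [h3, h4] at this
  rw [← this]
  constructor
  · rintro ⟨σ', h⟩
    cases h with
    | seq a b => cases a.det h1; exact ⟨_, b⟩
  · rintro ⟨σ', h⟩
    exact ⟨σ', .seq h1 h⟩

open Nat.Partrec in
/-- a program that halts on input `n + 1` iff the `n`-th code halts on `0` -/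
theorem exists_universal : ∃ U : Prog, ∀ n : ℕ,
    (∃ σ', Big U (update (fun _ => 0) 0 (n + 1)) σ') ↔
      (Code.eval (Denumerable.ofNat Code n) 0).Dom := by
  let g : ℕ → ℕ → ℕ := fun m k =>
    cond (Code.evaln k (Denumerable.ofNat Code (m - 1)) 0).isSome 0 1
  have hg : Primrec₂ g := by
    have h1 : Primrec fun p : ℕ × ℕ => Code.evaln p.2 (Denumerable.ofNat Code (p.1 - 1)) 0 :=
      Code.primrec_evaln.comp (Primrec.pair (Primrec.pair Primrec.snd
        ((Primrec.ofNat Code).comp (Primrec.nat_sub.comp Primrec.fst (Primrec.const 1))))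
        (Primrec.const 0))
    exact Primrec.cond (Primrec.option_isSome.comp h1) (Primrec.const 0) (Primrec.const 1)
  obtain ⟨U, hU⟩ := exists_search hg
  refine ⟨U, fun n => ?_⟩
  rw [hU, Part.dom_iff_mem]
  simp only [Function.update_self, Code.evaln_complete]
  rw [Function.update_of_ne (by omega)]
  constructor
  · rintro ⟨k, hk⟩
    simp only [g, zero_add, Nat.add_sub_cancel] at hk
    cases h : Code.evaln k (Denumerable.ofNat Code n) 0 with
    | none => simp [h] at hk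
    | some x => exact ⟨x, k, h⟩
  · rintro ⟨x, k, hk⟩
    refine ⟨k, ?_⟩
    simp only [g, zero_add, Nat.add_sub_cancel]
    rw [Option.mem_def.mp hk]; rfl

end Pool.Agent.P.MP_b2749c_lc
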