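import Mathlib

/-! While programs on counters compute all primitive recursive functions. -/

namespace Pool.Agent.P.MP_b2749c_lc

inductive Prog
  | inc (i : ℕ)
  | dec (i : ℕ)
  | seq (p q : Prog)
  | loop (i : ℕ) (p : Prog)

open Function (update)

inductive Big : Prog → (ℕ → ℕ) → (ℕ → ℕ) → Prop
  | inc (i σ) : Big (.inc i) σ (update σ i (σ i + 1))
  | dec (i σ) : Big (.dec i) σ (update σ i (σ i - 1))
  | seq {p q σ σ' σ''} : Big p σ σ' → Big q σ' σ'' → Big (.seq p q) σ σ''
  | loop0 {i p σ} : σ i ≤ 0 → Big (.loop i p) σ σ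
  | loopS {i p σ σ' σ''} : 0 < σ i → Big p σ σ' → Big (.loop i p) σ' σ'' → Big (.loop i p) σ σ''

theorem Big.det {p σ σ₁} (h : Big p σ σ₁) : ∀ {σ₂}, Big p σ σ₂ → σ₁ = σ₂ := by
  induction h with
  | inc => intro _ h; cases h; rfl
  | dec => intro _ h; cases h; rfl
  | seq _ _ ih1 ih2 =>
    intro _ h
    cases h with
    | seq h1 h2 => cases ih1 h1; exact ih2 h2
  | loop0 h0 =>
    intro _ h
    cases h with
    | loop0 => rfl
    | loopS h1 => omega
  | loopS h0 _ _ ih1 ih2 =>
    intro _ h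
    cases h with
    | loop0 h1 => omega
    | loopS _ h1 h2 => cases ih1 h1; exact ih2 h2

def clear (i : ℕ) : Prog := .loop i (.dec i)

theorem big_clear (i : ℕ) (σ : ℕ → ℕ) : Big (clear i) σ (update σ i 0) := by
  induction h : σ i generalizing σ with
  | zero =>
    have : update σ i 0 = σ := by rw [← h]; simp
    rw [this]; exact .loop0 h.le
  | succ m ih =>
    have := ih (update σ i (σ i - 1)) (by simp [h])
    rw [Function.update_idem] at this
    exact .loopS (by omega) (.dec i σ) this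

/-- empties `i` while adding it to `j` and `k` -/
def move2 (i j k : ℕ) : Prog := .loop i (.seq (.dec i) (.seq (.inc j) (.inc k)))

theorem big_move2 {i j k : ℕ} (hij : i ≠ j) (hik : i ≠ k) (hjk : j ≠ k) (σ : ℕ → ℕ) :
    ∃ σ', Big (move2 i j k) σ σ' ∧ σ' i = 0 ∧ σ' j = σ j + σ i ∧ σ' k = σ k + σ i ∧
      ∀ l, l ≠ i → l ≠ j → l ≠ k → σ' l = σ l := by
  induction h : σ i generalizing σ with
  | zero => exact ⟨σ, .loop0 h.le, h, rfl, rfl, fun _ _ _ _ => rfl⟩
  | succ m ih =>
    obtain ⟨σ₁, h1, a1, a2, a3, a4⟩ : ∃ σ₁, Big (.seq (.dec i) (.seq (.inc j) (.inc k))) σ σ₁ ∧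
        σ₁ i = m ∧ σ₁ j = σ j + 1 ∧ σ₁ k = σ k + 1 ∧ ∀ l, l ≠ i → l ≠ j → l ≠ k → σ₁ l = σ l :=
      ⟨_, .seq (.dec _ _) (.seq (.inc _ _) (.inc _ _)), by simp [hij, hik, h],
        by simp [hjk, hij.symm], by simp [hjk.symm, hik.symm], fun l a b c => by simp [a, b, c]⟩
    obtain ⟨σ', hb, e1, e2, e3, e4⟩ := ih σ₁ a1
    exact ⟨σ', .loopS (by omega) h1 hb, e1, by omega, by omega,
      fun l a b c => (e4 l a b c).trans (a4 l a b c)⟩

/-- empties `i` while adding it to `j` -/
def move1 (i j : ℕ) : Prog := .loop i (.seq (.dec i) (.inc j))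

theorem big_move1 {i j : ℕ} (hij : i ≠ j) (σ : ℕ → ℕ) :
    ∃ σ', Big (move1 i j) σ σ' ∧ σ' i = 0 ∧ σ' j = σ j + σ i ∧
      ∀ l, l ≠ i → l ≠ j → σ' l = σ l := by
  induction h : σ i generalizing σ with
  | zero => exact ⟨σ, .loop0 h.le, h, rfl, fun _ _ _ => rfl⟩
  | succ m ih =>
    obtain ⟨σ₁, h1, a1, a2, a4⟩ : ∃ σ₁, Big (.seq (.dec i) (.inc j)) σ σ₁ ∧
        σ₁ i = m ∧ σ₁ j = σ j + 1 ∧ ∀ l, l ≠ i → l ≠ j → σ₁ l = σ l :=
      ⟨_, .seq (.dec _ _) (.inc _ _), by simp [hij, h],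
        by simp [hij.symm], fun l a b => by simp [a, b]⟩
    obtain ⟨σ', hb, e1, e2, e4⟩ := ih σ₁ a1
    exact ⟨σ', .loopS (by omega) h1 hb, e1, by omega, fun l a b => (e4 l a b).trans (a4 l a b)⟩

/-- `j := i`, using `k` as scratch -/
theorem exists_copy {i j k : ℕ} (hij : i ≠ j) (hik : i ≠ k) (hjk : j ≠ k) :
    ∃ p, ∀ σ, ∃ σ', Big p σ σ' ∧ σ' j = σ i ∧ ∀ l, l ≠ j → l ≠ k → σ' l = σ l := by
  refine ⟨.seq (clear j) (.seq (clear k) (.seq (move2 i j k) (move1 k i))), fun σ => ?_⟩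
  obtain ⟨σ₁, b1, e1, e2, e3, e4⟩ := big_move2 hij hik hjk (update (update σ j 0) k 0)
  obtain ⟨σ₂, b2, f1, f2, f4⟩ := big_move1 hik.symm σ₁
  refine ⟨σ₂, .seq (big_clear _ _) (.seq (big_clear _ _) (.seq b1 b2)), ?_, ?_⟩
  · rw [f4 j hjk hij.symm, e2]; simp [hjk, hij, hik]
  · intro l a b
    by_cases hl : l = i
    · subst hl; rw [f2, e1, e3]; simp [a, b]
    · rw [f4 l b hl, e4 l hl a b]; simp [a, b]

/-- there is a program writing `F σ` to register `out` and preserving the other registers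
below `b` -/
def Spec (b out : ℕ) (F : (ℕ → ℕ) → ℕ) : Prop :=
  ∃ p, ∀ σ, ∃ σ', Big p σ σ' ∧ σ' out = F σ ∧ ∀ j < b, j ≠ out → σ' j = σ j

theorem spec_copy {b out i : ℕ} (hi : i < b) (ho : out < b) (hio : i ≠ out) :
    Spec b out (fun σ => σ i) := by
  obtain ⟨p, hp⟩ := exists_copy (k := b) hio hi.ne ho.ne
  refine ⟨p, fun σ => ?_⟩
  obtain ⟨σ', h1, h2, h3⟩ := hp σ
  exact ⟨σ', h1, h2, fun j hj hjo => h3 j hjo hj.ne⟩

theorem vec_ofFn_succ {n : ℕ} (f : Fin (n + 1) → ℕ) :
    List.Vector.ofFn f = f 0 ::ᵥ List.Vector.ofFn fun i => f i.succ := rfl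

theorem spec_of_primrec' {n : ℕ} {f : List.Vector ℕ n → ℕ} (hf : Nat.Primrec' f) :
    ∀ (ins : Fin n → ℕ) (out b : ℕ), (∀ i, ins i < b) → out < b → (∀ i, ins i ≠ out) →
      Spec b out (fun σ => f (List.Vector.ofFn fun i => σ (ins i))) := by
  induction hf with
  | zero =>
    intro ins out b _ _ _
    exact ⟨clear out, fun σ => ⟨_, big_clear out σ, by simp, fun j _ hj => by simp [hj]⟩⟩
  | succ =>
    intro ins out b h1 h2 h3
    obtain ⟨p, hp⟩ := spec_copy (h1 0) h2 (h3 0)
    refine ⟨.seq p (.inc out), fun σ => ?_⟩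
    obtain ⟨σ', e1, e2, e3⟩ := hp σ
    refine ⟨_, .seq e1 (.inc _ _), ?_, fun j hj hjo => ?_⟩
    · simp [e2]
    · simp [hjo, e3 j hj hjo]
  | get i =>
    intro ins out b h1 h2 h3
    simpa using spec_copy (h1 i) h2 (h3 i)
  | @comp m n f g _ _ ihf ihg =>
    intro ins out b h1 h2 h3
    have key : ∀ k ≤ n, ∃ p, ∀ σ, ∃ σ', Big p σ σ' ∧
        (∀ i : Fin n, i.val < k → σ' (b + i) = g i (List.Vector.ofFn fun i => σ (ins i))) ∧
        ∀ j < b, σ' j = σ j := by
      intro k
      induction k with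
      | zero =>
        intro _
        refine ⟨clear b, fun σ => ⟨_, big_clear b σ, fun i hi => absurd hi (by omega), ?_⟩⟩
        intro j hj; simp [hj.ne]
      | succ k ih =>
        intro hk
        obtain ⟨p, hp⟩ := ih (by omega)
        obtain ⟨q, hq⟩ := ihg ⟨k, hk⟩ ins (b + k) (b + n) (fun i => by have := h1 i; omega)
          (by omega) (fun i => by have := h1 i; omega)
        refine ⟨.seq p q, fun σ => ?_⟩
        obtain ⟨σ₁, a1, a2, a3⟩ := hp σ
        obtain ⟨σ₂, b1, b2, b3⟩ := hq σ₁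
        refine ⟨σ₂, .seq a1 b1, fun i hi => ?_, fun j hj => ?_⟩
        · by_cases hik : i.val = k
          · have : i = ⟨k, hk⟩ := Fin.ext hik
            subst this
            rw [b2]
            simp only [a3 _ (h1 _)]
          · rw [b3 _ (by have := i.2; omega) (by omega), a2 i (by omega)]
        · rw [b3 j (by omega) (by omega), a3 j hj]
    obtain ⟨p, hp⟩ := key n le_rfl
    obtain ⟨q, hq⟩ := ihf (fun i => b + i) out (b + n) (fun i => by have := i.2; omega)
      (by omega) (fun i => by omega)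
    refine ⟨.seq p q, fun σ => ?_⟩
    obtain ⟨σ₁, a1, a2, a3⟩ := hp σ
    obtain ⟨σ₂, b1, b2, b3⟩ := hq σ₁
    refine ⟨σ₂, .seq a1 b1, ?_, fun j hj hjo => ?_⟩
    · rw [b2]; simp only [a2 _ (Fin.is_lt _)]
    · rw [b3 j (by omega) hjo, a3 j hj]
  | @prec n f g _ _ ihf ihg =>
    intro ins out b h1 h2 h3
    -- registers: `b` counter, `b+1` accumulator, `b+2` temporary, `b+3` countdown
    obtain ⟨p₁, hp₁⟩ := ihf (fun i => ins i.succ) (b + 1) (b + 4)
      (fun i => by have := h1 i.succ; omega) (by omega) (fun i => by have := h1 i.succ; omega)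
    obtain ⟨p₂, hp₂⟩ := spec_copy (b := b + 4) (out := b + 3) (i := ins 0)
      (by have := h1 0; omega) (by omega) (by have := h1 0; omega)
    obtain ⟨p₃, hp₃⟩ := ihg (Fin.cons b (Fin.cons (b + 1) fun i => ins i.succ)) (b + 2) (b + 4)
      (fun i => by
        refine Fin.cases ?_ (fun i => Fin.cases ?_ (fun i => ?_) i) i
        · simp
        · simp
        · have := h1 i.succ; simp; omega) (by omega)
      (fun i => by
        refine Fin.cases ?_ (fun i => Fin.cases ?_ (fun i => ?_) i) i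
        · simp
        · simp
        · have := h1 i.succ; simp; omega)
    obtain ⟨p₄, hp₄⟩ := spec_copy (b := b + 4) (out := b + 1) (i := b + 2)
      (by omega) (by omega) (by omega)
    obtain ⟨p₅, hp₅⟩ := spec_copy (b := b + 4) (out := out) (i := b + 1)
      (by omega) (by omega) (by omega)
    beta_reduce at hp₁ hp₂ hp₃ hp₄ hp₅
    let body : Prog := .seq (.dec (b + 3)) (.seq p₃ (.seq p₄ (.inc b)))
    have hloop : ∀ (v : List.Vector ℕ n) (m : ℕ) (σ : ℕ → ℕ), σ (b + 3) = m →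
        (List.Vector.ofFn fun i : Fin n => σ (ins i.succ)) = v →
        σ (b + 1) = Nat.rec (f v) (fun y IH => g (y ::ᵥ IH ::ᵥ v)) (σ b) →
        ∃ σ', Big (.loop (b + 3) body) σ σ' ∧
          σ' (b + 1) = Nat.rec (f v) (fun y IH => g (y ::ᵥ IH ::ᵥ v)) (σ b + m) ∧
          ∀ j < b, σ' j = σ j := by
      intro v m
      induction m with
      | zero => intro σ e1 _ e3; exact ⟨σ, .loop0 e1.le, e3, fun _ _ => rfl⟩
      | succ m ih =>
        intro σ e1 e2 e3
        obtain ⟨σ₁, a1, a2, a3⟩ := hp₃ (update σ (b + 3) (σ (b + 3) - 1))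
        obtain ⟨σ₂, b1, b2, b3⟩ := hp₄ σ₁
        have hlt : ∀ j < b, (update σ₂ b (σ₂ b + 1)) j = σ j := by
          intro j hj
          rw [Function.update_of_ne hj.ne, b3 j (by omega) (by omega), a3 j (by omega) (by omega),
            Function.update_of_ne (by omega)]
        have hb : σ₂ b = σ b := by
          rw [b3 b (by omega) (by omega), a3 b (by omega) (by omega),
            Function.update_of_ne (by omega)]
        obtain ⟨σ₃, c1, c2, c3⟩ := ih (update σ₂ b (σ₂ b + 1))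
          (by
            rw [Function.update_of_ne (by omega), b3 _ (by omega) (by omega),
              a3 _ (by omega) (by omega)]
            simp [e1])
          (by rw [← e2]; congr 1; funext i; exact hlt _ (h1 _))
          (by
            rw [Function.update_of_ne (by omega), b2, a2, Function.update_self, hb]
            simp only [vec_ofFn_succ, Fin.cons_zero, Fin.cons_succ]
            rw [Function.update_of_ne (by omega), Function.update_of_ne (by omega), e3, ← e2]
            congr 4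
            funext i
            exact Function.update_of_ne (by have := h1 i.succ; omega) _ _)
        refine ⟨σ₃, .loopS (by omega) (.seq (.dec _ _) (.seq a1 (.seq b1 (.inc _ _)))) c1, ?_,
          fun j hj => (c3 j hj).trans (hlt j hj)⟩
        rw [c2, Function.update_self, hb, add_assoc, add_comm 1 m]
    refine ⟨.seq p₁ (.seq p₂ (.seq (clear b) (.seq (.loop (b + 3) body) p₅))), fun σ => ?_⟩
    obtain ⟨σ₁, a1, a2, a3⟩ := hp₁ σ
    obtain ⟨σ₂, b1, b2, b3⟩ := hp₂ σ₁
    have hlt : ∀ j < b, (update σ₂ b 0) j = σ j := by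
      intro j hj
      rw [Function.update_of_ne hj.ne, b3 j (by omega) (by omega), a3 j (by omega) (by omega)]
    obtain ⟨σ₃, c1, c2, c3⟩ := hloop (List.Vector.ofFn fun i : Fin n => σ (ins i.succ))
      (σ (ins 0)) (update σ₂ b 0)
      (by rw [Function.update_of_ne (by omega), b2]
          exact a3 _ (by have := h1 0; omega) (by have := h1 0; omega))
      (by congr 1; funext i; exact hlt _ (h1 _))
      (by rw [Function.update_of_ne (by omega), Function.update_self, b3 _ (by omega) (by omega),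
            a2]; rfl)
    obtain ⟨σ₄, d1, d2, d3⟩ := hp₅ σ₃
    refine ⟨σ₄, .seq a1 (.seq b1 (.seq (big_clear _ _) (.seq c1 d1))), ?_, fun j hj hjo => ?_⟩
    · beta_reduce
      rw [d2, c2, Function.update_self, zero_add, vec_ofFn_succ]
      rfl
    · rw [d3 j (by omega) hjo, c3 j hj, hlt j hj]

end Pool.Agent.P.MP_b2749c_lc
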