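import Mathlib

/-! The action of a free group on words defined by a wreath recursion. -/

namespace Pool.Agent.P.MP_b2749c_lc

open FreeGroup (of)

/-- A wreath recursion on the alphabet `X` with generators `G`. -/
structure Rec (X G : Type) where
  σ : G → Equiv.Perm X
  h : G → X → List (G × Bool)

namespace Rec

variable {X G : Type} (R : Rec X G)

/-- generator acting on `X × F` -/
def genPerm (i : G) : Equiv.Perm (X × FreeGroup G) :=
  Equiv.prodShear (R.σ i) (fun x => Equiv.mulLeft (FreeGroup.mk (R.h i x)))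

def psi : FreeGroup G →* Equiv.Perm (X × FreeGroup G) := FreeGroup.lift R.genPerm

def top (γ : FreeGroup G) (x : X) : X := (R.psi γ (x, 1)).1

def sec (γ : FreeGroup G) (x : X) : FreeGroup G := (R.psi γ (x, 1)).2

theorem psi_comm (γ : FreeGroup G) :
    ∀ (x : X) (u v : FreeGroup G),
      R.psi γ (x, u * v) = ((R.psi γ (x, u)).1, (R.psi γ (x, u)).2 * v) := by
  induction γ using FreeGroup.induction_on with
  | C1 => intro x u v; simp
  | of i => intro x u v; simp [psi, genPerm, mul_assoc]
  | inv_of i _ =>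
    intro x u v
    simp [psi, genPerm, Equiv.Perm.inv_def, Equiv.prodShear, mul_assoc]
  | mul a b ha hb =>
    intro x u v
    simp only [map_mul, Equiv.Perm.mul_apply]
    rw [hb, ha]

theorem psi_apply (γ : FreeGroup G) (x : X) (u : FreeGroup G) :
    R.psi γ (x, u) = (R.top γ x, R.sec γ x * u) := by
  have := R.psi_comm γ x 1 u
  rwa [one_mul] at this

@[simp] theorem top_one (x : X) : R.top 1 x = x := by simp [top]

@[simp] theorem sec_one (x : X) : R.sec 1 x = 1 := by simp [sec]

@[simp] theorem top_of (i : G) (x : X) : R.top (of i) x = R.σ i x := by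
  simp [top, psi, genPerm]

@[simp] theorem sec_of (i : G) (x : X) : R.sec (of i) x = FreeGroup.mk (R.h i x) := by
  simp [sec, psi, genPerm]

theorem top_mul (γ δ : FreeGroup G) (x : X) : R.top (γ * δ) x = R.top γ (R.top δ x) := by
  have : R.psi (γ * δ) (x, 1) = R.psi γ (R.psi δ (x, 1)) := by simp
  rw [top, this, R.psi_apply δ, R.psi_apply γ]

theorem sec_mul (γ δ : FreeGroup G) (x : X) :
    R.sec (γ * δ) x = R.sec γ (R.top δ x) * R.sec δ x := by
  have : R.psi (γ * δ) (x, 1) = R.psi γ (R.psi δ (x, 1)) := by simp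
  rw [sec, this, R.psi_apply δ, R.psi_apply γ, mul_one]

theorem top_inv_top (γ : FreeGroup G) (x : X) : R.top γ⁻¹ (R.top γ x) = x := by
  rw [← top_mul]; simp

theorem top_top_inv (γ : FreeGroup G) (x : X) : R.top γ (R.top γ⁻¹ x) = x := by
  rw [← top_mul]; simp

theorem sec_inv_top (γ : FreeGroup G) (x : X) : R.sec γ⁻¹ (R.top γ x) = (R.sec γ x)⁻¹ := by
  have := R.sec_mul γ⁻¹ γ x
  rw [inv_mul_cancel, sec_one] at this
  exact eq_inv_of_mul_eq_one_left this.symm

theorem sec_inv (γ : FreeGroup G) (x : X) : R.sec γ⁻¹ x = (R.sec γ (R.top γ⁻¹ x))⁻¹ := by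
  rw [← sec_inv_top, top_top_inv]

/-- action on words -/
def act : FreeGroup G → List X → List X
  | _, [] => []
  | γ, x :: w => R.top γ x :: act (R.sec γ x) w

/-- iterated sections -/
def secs : FreeGroup G → List X → FreeGroup G
  | γ, [] => γ
  | γ, x :: w => secs (R.sec γ x) w

@[simp] theorem act_nil (γ : FreeGroup G) : R.act γ [] = [] := rfl

@[simp] theorem act_cons (γ : FreeGroup G) (x : X) (w : List X) :
    R.act γ (x :: w) = R.top γ x :: R.act (R.sec γ x) w := rfl

@[simp] theorem secs_nil (γ : FreeGroup G) : R.secs γ [] = γ := rfl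

@[simp] theorem secs_cons (γ : FreeGroup G) (x : X) (w : List X) :
    R.secs γ (x :: w) = R.secs (R.sec γ x) w := rfl

@[simp] theorem act_one (w : List X) : R.act 1 w = w := by
  induction w with
  | nil => rfl
  | cons x w ih => simp [ih]

@[simp] theorem secs_one (w : List X) : R.secs 1 w = 1 := by
  induction w with
  | nil => rfl
  | cons x w ih => simp [ih]

theorem act_mul (w : List X) : ∀ γ δ : FreeGroup G, R.act (γ * δ) w = R.act γ (R.act δ w) := by
  induction w with
  | nil => intros; rfl
  | cons x w ih => intro γ δ; simp [top_mul, sec_mul, ih]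

theorem secs_mul (w : List X) :
    ∀ γ δ : FreeGroup G, R.secs (γ * δ) w = R.secs γ (R.act δ w) * R.secs δ w := by
  induction w with
  | nil => intros; rfl
  | cons x w ih => intro γ δ; simp [sec_mul, ih]

@[simp] theorem length_act (w : List X) : ∀ γ : FreeGroup G, (R.act γ w).length = w.length := by
  induction w with
  | nil => intros; rfl
  | cons x w ih => intro γ; simp [ih]

theorem act_inv_act (γ : FreeGroup G) (w : List X) : R.act γ⁻¹ (R.act γ w) = w := by
  rw [← act_mul]; simp

theorem act_act_inv (γ : FreeGroup G) (w : List X) : R.act γ (R.act γ⁻¹ w) = w := by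
  rw [← act_mul]; simp

theorem secs_inv_act (γ : FreeGroup G) (w : List X) :
    R.secs γ⁻¹ (R.act γ w) = (R.secs γ w)⁻¹ := by
  have := R.secs_mul w γ⁻¹ γ
  rw [inv_mul_cancel, secs_one] at this
  exact eq_inv_of_mul_eq_one_left this.symm

theorem secs_inv (γ : FreeGroup G) (w : List X) :
    R.secs γ⁻¹ w = (R.secs γ (R.act γ⁻¹ w))⁻¹ := by
  rw [← secs_inv_act, act_act_inv]

theorem act_append (a b : List X) :
    ∀ γ : FreeGroup G, R.act γ (a ++ b) = R.act γ a ++ R.act (R.secs γ a) b := by
  induction a with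
  | nil => intros; rfl
  | cons x a ih => intro γ; simp [ih]

/-- the action as a homomorphism to permutations of words -/
def actHom : FreeGroup G →* Equiv.Perm (List X) where
  toFun γ :=
    { toFun := R.act γ
      invFun := R.act γ⁻¹
      left_inv := R.act_inv_act γ
      right_inv := R.act_act_inv γ }
  map_one' := by ext w : 1; simp
  map_mul' γ δ := by ext w : 1; simp [act_mul]

@[simp] theorem actHom_apply (γ : FreeGroup G) (w : List X) : R.actHom γ w = R.act γ w := rfl

/-- level-transitivity -/
def LT : Prop := ∀ u v : List X, u.length = v.length → ∃ γ, R.act γ u = v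

/-- a subgroup generated by generators whose sections lie in it is closed under sections -/
theorem sec_mem_closure (S : Set G)
    (hS : ∀ i ∈ S, ∀ x, FreeGroup.mk (R.h i x) ∈ Subgroup.closure (of '' S))
    {γ : FreeGroup G} (hγ : γ ∈ Subgroup.closure (of '' S)) :
    ∀ x, R.sec γ x ∈ Subgroup.closure (of '' S) := by
  induction hγ using Subgroup.closure_induction with
  | mem g hg =>
    obtain ⟨i, hi, rfl⟩ := hg
    intro x; simpa using hS i hi x
  | one => intro x; simp
  | mul a b _ _ ha hb => intro x; rw [sec_mul]; exact mul_mem (ha _) (hb _)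
  | inv a _ ha => intro x; rw [sec_inv]; exact inv_mem (ha _)

theorem secs_mem_closure (S : Set G)
    (hS : ∀ i ∈ S, ∀ x, FreeGroup.mk (R.h i x) ∈ Subgroup.closure (of '' S)) (w : List X) :
    ∀ γ ∈ Subgroup.closure (of '' S), R.secs γ w ∈ Subgroup.closure (of '' S) := by
  induction w with
  | nil => intro γ hγ; exact hγ
  | cons x w ih => intro γ hγ; exact ih _ (R.sec_mem_closure S hS hγ x)

/-- elements fixing all words of length `n` -/
def fixLevel (n : ℕ) : Subgroup (FreeGroup G) where
  carrier := {γ | ∀ w : List X, w.length = n → R.act γ w = w}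
  one_mem' := by intro w _; simp
  mul_mem' := by
    intro a b ha hb w hw
    rw [act_mul, hb w hw, ha w hw]
  inv_mem' := by
    intro a ha w hw
    conv_lhs => rw [← ha w hw]
    exact R.act_inv_act a w

theorem conj_mem_fixLevel {n : ℕ} {a : FreeGroup G} (ha : a ∈ R.fixLevel n) (g : FreeGroup G) :
    g * a * g⁻¹ ∈ R.fixLevel n := by
  intro w hw
  rw [act_mul, act_mul, ha _ (by simpa using hw), act_act_inv]

theorem mem_fixLevel_succ {n : ℕ} {a : FreeGroup G} (h1 : ∀ x, R.top a x = x)
    (h2 : ∀ x, R.sec a x ∈ R.fixLevel n) : a ∈ R.fixLevel (n + 1) := by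
  intro w hw
  cases w with
  | nil => rfl
  | cons x w => rw [act_cons, h1, h2 x w (by simpa using hw)]

/-- product of a recursion with a fibre action -/
def ext {Z : Type} (φ : G → Equiv.Perm Z) : Rec (X × Z) G where
  σ i := Equiv.prodCongr (R.σ i) (φ i)
  h i x := R.h i x.1

theorem ext_top_sec {Z : Type} (φ : G → Equiv.Perm Z) (γ : FreeGroup G) :
    ∀ (y : X) (z : Z), (R.ext φ).top γ (y, z) = (R.top γ y, FreeGroup.lift φ γ z) ∧
      (R.ext φ).sec γ (y, z) = R.sec γ y := by
  induction γ using FreeGroup.induction_on with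
  | C1 => intro y z; simp
  | of i => intro y z; simp [ext]
  | inv_of i ih =>
    intro y z
    have h1 : (R.ext φ).top (of i)⁻¹ (y, z) =
        (R.top (of i)⁻¹ y, FreeGroup.lift φ (of i)⁻¹ z) := by
      have := (R.ext φ).top_inv_top (of i) (R.top (of i)⁻¹ y, FreeGroup.lift φ (of i)⁻¹ z)
      rw [(ih _ _).1, top_top_inv] at this
      simpa using this
    refine ⟨h1, ?_⟩
    rw [sec_inv, h1, (ih _ _).2, ← sec_inv]
  | mul a b ha hb =>
    intro y z
    rw [top_mul, sec_mul, (hb y z).1, (hb y z).2, (ha _ _).1, (ha _ _).2, top_mul, sec_mul]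
    simp

theorem ext_act_cons {Z : Type} (φ : G → Equiv.Perm Z) (γ : FreeGroup G) (y : X) (z : Z)
    (w : List (X × Z)) :
    (R.ext φ).act γ ((y, z) :: w) =
      (R.top γ y, FreeGroup.lift φ γ z) :: (R.ext φ).act (R.sec γ y) w := by
  rw [act_cons, (R.ext_top_sec φ γ y z).1, (R.ext_top_sec φ γ y z).2]

theorem ext_secs {Z : Type} (φ : G → Equiv.Perm Z) (w : List (X × Z)) :
    ∀ γ : FreeGroup G, (R.ext φ).secs γ w = R.secs γ (w.map Prod.fst) := by
  induction w with
  | nil => intro γ; rfl
  | cons x w ih =>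
    intro γ
    obtain ⟨y, z⟩ := x
    rw [secs_cons, (R.ext_top_sec φ γ y z).2, ih]; rfl

theorem ext_act_fst {Z : Type} (φ : G → Equiv.Perm Z) (w : List (X × Z)) :
    ∀ γ : FreeGroup G, ((R.ext φ).act γ w).map Prod.fst = R.act γ (w.map Prod.fst) := by
  induction w with
  | nil => intro γ; rfl
  | cons x w ih =>
    intro γ
    obtain ⟨y, z⟩ := x
    rw [ext_act_cons]; simp [ih]

theorem ext_act_snd {Z : Type} (φ : G → Equiv.Perm Z) (w : List (X × Z)) :
    ∀ γ : FreeGroup G,
      (∀ a b, w.map Prod.fst = a ++ b → b ≠ [] → FreeGroup.lift φ (R.secs γ a) = 1) →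
      ((R.ext φ).act γ w).map Prod.snd = w.map Prod.snd := by
  induction w with
  | nil => intro γ _; rfl
  | cons x w ih =>
    intro γ hγ
    obtain ⟨y, z⟩ := x
    rw [ext_act_cons]
    have h0 := hγ [] (y :: w.map Prod.fst) rfl (by simp)
    rw [secs_nil] at h0
    have h1 := ih (R.sec γ y) (fun a b hab hb => hγ (y :: a) b (by simp [hab]) hb)
    simp [h0, h1]

end Rec

theorem list_prod_ext {A B : Type} {u v : List (A × B)} (h1 : u.map Prod.fst = v.map Prod.fst)
    (h2 : u.map Prod.snd = v.map Prod.snd) : u = v := by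
  induction u generalizing v with
  | nil => cases v with
    | nil => rfl
    | cons _ _ => simp at h1
  | cons x u ih => cases v with
    | nil => simp at h1
    | cons y v =>
      simp only [List.map_cons, List.cons.injEq] at h1 h2
      rw [ih h1.2 h2.2, Prod.ext h1.1 h2.1]

end Pool.Agent.P.MP_b2749c_lc
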